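import Pool.Agent.Work.MP_073f2d_co.Few5

/-!
# Codes with few dual weights: the upper bound by direct sums of Hamming codes
-/

set_option autoImplicit false

namespace Pool.Agent.MP073f2d.Few

open Finset N8b55e67f Filter Topology
open scoped ENNReal

lemma dp_comm {n : ℕ} (u v : 𝔽₂ n) : dp u v = dp v u := by
  unfold dp
  apply Finset.sum_congr rfl
  intro i _
  exact mul_comm _ _

lemma card_dualF_eq {n : ℕ} (V : Submodule (ZMod 2) (𝔽₂ n)) :
    (dualF V).card = Nat.card (dual V) := by
  classical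
  unfold dualF
  rw [Nat.card_eq_fintype_card, Fintype.card_subtype]

lemma dual_dual {n : ℕ} (E : Submodule (ZMod 2) (𝔽₂ n)) : dual (dual E) = E := by
  classical
  have hle : E ≤ dual (dual E) := by
    intro u hu v hv
    have h := hv u hu
    calc ∑ i, u i * v i = ∑ i, v i * u i := Finset.sum_congr rfl (fun i _ => mul_comm _ _)
      _ = 0 := h
  have h1 := card_dual_mul E
  have h2 := card_dual_mul (dual E)
  rw [card_dualF_eq] at h1 h2
  have hpos : 0 < Nat.card (dual E) := Nat.card_pos
  have h3 : Nat.card (dual (dual E)) = Nat.card E := by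
    have : Nat.card (dual (dual E)) * Nat.card (dual E) = Nat.card E * Nat.card (dual E) := by
      rw [h2, ← h1, mul_comm]
    exact Nat.eq_of_mul_eq_mul_right hpos this
  symm
  apply SetLike.coe_injective
  apply Set.eq_of_subset_of_ncard_le hle _ (Set.toFinite _)
  have h4 : ((dual (dual E) : Submodule (ZMod 2) (𝔽₂ n)) : Set (𝔽₂ n)).ncard =
      Nat.card (dual (dual E)) := (Nat.card_coe_set_eq _).symm
  have h5 : ((E : Submodule (ZMod 2) (𝔽₂ n)) : Set (𝔽₂ n)).ncard = Nat.card E :=
    (Nat.card_coe_set_eq _).symm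
  rw [h4, h5, h3]

/-- A nonzero functional is nonzero on half of the vectors. -/
lemma half {m : ℕ} (y : 𝔽₂ m) :
    2 * (univ.filter (fun a : 𝔽₂ m => dp y a ≠ 0)).card = if y = 0 then 0 else 2 ^ m := by
  classical
  split_ifs with h
  · subst h
    simp [dp_zero_left]
  · have h1 := sum_sg_dp h
    have h2 : ∀ a : 𝔽₂ m, sg (dp y a) = 1 - 2 * (if dp y a ≠ 0 then 1 else 0) := by
      intro a
      by_cases h : dp y a = 0
      · simp [h, sg_zero]
      · simp [h, sg_ne_zero h]
    rw [Finset.sum_congr rfl (fun a _ => h2 a), Finset.sum_sub_distrib, ← Finset.mul_sum] at h1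
    rw [Finset.sum_ite, Finset.sum_const_zero, add_zero, Finset.sum_const, nsmul_eq_mul, mul_one,
      Finset.sum_const, nsmul_eq_mul, mul_one] at h1
    have h3 : (univ : Finset (𝔽₂ m)).card = 2 ^ m := by
      simp [Fintype.card_pi, ZMod.card]
    rw [h3] at h1
    have h4 : ((2 * (univ.filter (fun a : 𝔽₂ m => dp y a ≠ 0)).card : ℕ) : ℤ) =
        ((2 ^ m : ℕ) : ℤ) := by
      push_cast
      push_cast at h1
      linarith
    exact_mod_cast h4

/-- The index set of the parity check system. -/
abbrev Idx (r m : ℕ) := Fin r × {a : 𝔽₂ m // a ≠ 0}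

lemma card_idx (r m : ℕ) : Fintype.card (Idx r m) = r * (2 ^ m - 1) := by
  classical
  rw [Fintype.card_prod, Fintype.card_fin]
  congr 1
  rw [Fintype.card_subtype_compl, Fintype.card_subtype_eq]
  simp [Fintype.card_pi, ZMod.card]

/-- The enumeration of the index set. -/
noncomputable def enum (r m : ℕ) : Fin (r * (2 ^ m - 1)) ≃ Idx r m :=
  (Fintype.equivFinOfCardEq (card_idx r m)).symm

/-- The generator map of the dual of the direct sum of Hamming codes. -/
noncomputable def gen (r m : ℕ) : (Fin r → 𝔽₂ m) →ₗ[ZMod 2] 𝔽₂ (r * (2 ^ m - 1)) where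
  toFun y i := dp (y (enum r m i).1) (enum r m i).2.1
  map_add' y z := by
    funext i
    simp only [Pi.add_apply, dp_add_left]
  map_smul' c y := by
    funext i
    simp only [Pi.smul_apply, dp, smul_eq_mul, RingHom.id_apply, Finset.mul_sum, mul_assoc]

lemma gen_apply (r m : ℕ) (y : Fin r → 𝔽₂ m) (i : Fin (r * (2 ^ m - 1))) :
    gen r m y i = dp (y (enum r m i).1) (enum r m i).2.1 := rfl

lemma gen_weight (r m : ℕ) (y : Fin r → 𝔽₂ m) :
    2 * hammingNorm (gen r m y) = 2 ^ m * (univ.filter (fun k => y k ≠ 0)).card := by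
  classical
  have h1 : hammingNorm (gen r m y) =
      (univ.filter (fun p : Idx r m => dp (y p.1) p.2.1 ≠ 0)).card := by
    unfold hammingNorm
    apply Finset.card_bij (fun i _ => enum r m i)
    · intro i hi
      rw [Finset.mem_filter] at hi ⊢
      exact ⟨Finset.mem_univ _, hi.2⟩
    · intro i _ j _ h
      exact (enum r m).injective h
    · intro p hp
      refine ⟨(enum r m).symm p, ?_, by simp⟩
      rw [Finset.mem_filter] at hp ⊢
      refine ⟨Finset.mem_univ _, ?_⟩
      rw [gen_apply, Equiv.apply_symm_apply]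
      exact hp.2
  have h2 : (univ.filter (fun p : Idx r m => dp (y p.1) p.2.1 ≠ 0)).card =
      ∑ k : Fin r, (univ.filter (fun a : 𝔽₂ m => dp (y k) a ≠ 0)).card := by
    rw [Finset.card_filter, Fintype.sum_prod_type]
    apply Finset.sum_congr rfl
    intro k _
    rw [← Finset.card_filter]
    apply Finset.card_bij (fun a _ => a.1)
    · intro a ha
      rw [Finset.mem_filter] at ha ⊢
      exact ⟨Finset.mem_univ _, ha.2⟩
    · intro a _ b _ h
      exact Subtype.ext h
    · intro a ha
      rw [Finset.mem_filter] at ha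
      have hne : a ≠ 0 := by
        intro h0
        apply ha.2
        rw [h0, dp_zero_right]
      exact ⟨⟨a, hne⟩, by rw [Finset.mem_filter]; exact ⟨Finset.mem_univ _, ha.2⟩, rfl⟩
  rw [h1, h2, Finset.mul_sum, Finset.sum_congr rfl (fun k _ => half (y k)), Finset.sum_ite,
    Finset.sum_const_zero, zero_add, Finset.sum_const, smul_eq_mul, mul_comm]

lemma gen_injective (r m : ℕ) : Function.Injective (gen r m) := by
  classical
  rw [injective_iff_map_eq_zero]
  intro y hy
  have h1 := gen_weight r m y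
  rw [hy, hammingNorm_zero, mul_zero] at h1
  have h2 : (univ.filter (fun k => y k ≠ 0)).card = 0 := by
    have h3 : 0 < 2 ^ m := by positivity
    rcases Nat.mul_eq_zero.1 h1.symm with h | h
    · omega
    · exact h
  rw [Finset.card_eq_zero, Finset.filter_eq_empty_iff] at h2
  funext k
  by_contra hk
  exact h2 (Finset.mem_univ k) hk

/-- The direct sum of `r` Hamming codes. -/
noncomputable def ham (r m : ℕ) : Submodule (ZMod 2) (𝔽₂ (r * (2 ^ m - 1))) :=
  dual (LinearMap.range (gen r m))

lemma ham_dual_card (r m : ℕ) : (dualF (ham r m)).card = 2 ^ (m * r) := by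
  rw [card_dualF_eq]
  unfold ham
  rw [dual_dual]
  have h1 : Nat.card (LinearMap.range (gen r m)) = Nat.card (Fin r → 𝔽₂ m) :=
    Nat.card_congr (Equiv.ofInjective (gen r m) (gen_injective r m)).symm
  rw [h1, Nat.card_eq_fintype_card]
  simp [Fintype.card_pi, ZMod.card, pow_mul]

lemma ham_wts (r m : ℕ) : (dualWts (ham r m)).card ≤ r := by
  classical
  have h1 : dualWts (ham r m) ⊆ (Finset.Icc 1 r).image (fun j => 2 ^ m * j / 2) := by
    intro w hw
    unfold dualWts at hw
    rw [Finset.mem_image] at hw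
    obtain ⟨u, hu, rfl⟩ := hw
    rw [Finset.mem_filter, mem_dualF] at hu
    have hu1 := hu.1
    unfold ham at hu1
    rw [dual_dual] at hu1
    obtain ⟨y, rfl⟩ := hu1
    rw [Finset.mem_image]
    refine ⟨(univ.filter (fun k => y k ≠ 0)).card, ?_, ?_⟩
    · rw [Finset.mem_Icc]
      constructor
      · by_contra hcon
        apply hu.2
        have h2 : (univ.filter (fun k => y k ≠ 0)).card = 0 := by omega
        have h3 := gen_weight r m y
        rw [h2, mul_zero] at h3
        exact hammingNorm_eq_zero.1 (by omega)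
      · refine (Finset.card_filter_le _ _).trans ?_
        simp
    · have h3 := gen_weight r m y
      rw [← h3]
      omega
  calc (dualWts (ham r m)).card ≤ ((Finset.Icc 1 r).image (fun j => 2 ^ m * j / 2)).card :=
        Finset.card_le_card h1
    _ ≤ (Finset.Icc 1 r).card := Finset.card_image_le
    _ = r := by simp

lemma minDensityFew_ham (r m : ℕ) :
    minDensityFew (r * (2 ^ m - 1)) r ≤ ENNReal.ofReal ((r : ℝ) ^ r / r.factorial) := by
  unfold minDensityFew
  refine (iInf₂_le (ham r m) (ham_wts r m)).trans ?_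
  rw [density_eq, ham_dual_card]
  have hN : r * (2 ^ m - 1) + r = r * 2 ^ m := by
    have h1 : 1 ≤ 2 ^ m := Nat.one_le_two_pow
    calc r * (2 ^ m - 1) + r = r * (2 ^ m - 1 + 1) := by ring
      _ = r * 2 ^ m := by rw [Nat.sub_add_cancel h1]
  have h1 : (Nat.card (hammingBall (r * (2 ^ m - 1)) r) : ℝ) ≤
      ((r : ℝ) * 2 ^ m) ^ r / r.factorial := by
    have h2 := card_ball_le (r * (2 ^ m - 1)) r
    rw [hN] at h2
    have h3 := Nat.choose_le_pow_div (α := ℝ) r (r * 2 ^ m)
    calc (Nat.card (hammingBall (r * (2 ^ m - 1)) r) : ℝ) ≤ ((r * 2 ^ m).choose r : ℝ) := by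
          exact_mod_cast h2
      _ ≤ ((r * 2 ^ m : ℕ) : ℝ) ^ r / r.factorial := h3
      _ = _ := by push_cast; rfl
  have hf : (0 : ℝ) < r.factorial := by exact_mod_cast r.factorial_pos
  have hD : (((2 ^ (m * r) : ℕ)) : ℝ≥0∞) ≠ 0 := by
    have : 0 < 2 ^ (m * r) := by positivity
    exact_mod_cast this.ne'
  rw [ENNReal.div_le_iff_le_mul (Or.inl hD) (Or.inl (ENNReal.natCast_ne_top _))]
  rw [← ENNReal.ofReal_natCast, ← ENNReal.ofReal_natCast, ← ENNReal.ofReal_mul (by positivity)]
  apply ENNReal.ofReal_le_ofReal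
  refine h1.trans (le_of_eq ?_)
  push_cast
  rw [pow_mul, mul_pow]
  ring

theorem upper_bound (r : ℕ) (hr : 1 ≤ r) :
    fFew r ≤ ENNReal.ofReal ((r : ℝ) ^ r / r.factorial) := by
  unfold fFew
  apply liminf_le_of_frequently_le _ (by isBoundedDefault)
  rw [frequently_atTop]
  intro N
  refine ⟨r * (2 ^ N - 1), ?_, minDensityFew_ham r N⟩
  have h1 : N < 2 ^ N := Nat.lt_two_pow_self
  calc N ≤ 2 ^ N - 1 := by omega
    _ = 1 * (2 ^ N - 1) := (one_mul _).symm
    _ ≤ r * (2 ^ N - 1) := Nat.mul_le_mul_right _ hr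

end Pool.Agent.MP073f2d.Few
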