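import Mathlib

/-!
# Linear start codes by doubling

If `m ≥ 1` and `m * 2^m * log 2 < C(n, r)`, then some subspace `V ≤ F_2^n` of codimension `m`
has the property that every coset of `V` contains a vector of Hamming weight exactly `r`.
-/

namespace Pool.Agent.MP073f2d

open Finset

section Doubling

variable {E : Type*} [AddCommGroup E] [Module (ZMod 2) E]

lemma add_self_two (x : E) : x + x = 0 := by
  have h : (2 : ZMod 2) • x = 0 := by
    rw [show (2 : ZMod 2) = 0 from rfl, zero_smul]
  rw [← h, two_smul]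

lemma mem_sup_span_iff (V : Submodule (ZMod 2) E) (v x : E) :
    x ∈ V ⊔ Submodule.span (ZMod 2) {v} ↔ x ∈ V ∨ x + v ∈ V := by
  rw [Submodule.mem_sup]
  constructor
  · rintro ⟨y, hy, z, hz, rfl⟩
    rw [Submodule.mem_span_singleton] at hz
    obtain ⟨a, rfl⟩ := hz
    fin_cases a
    · left
      show y + (0 : ZMod 2) • v ∈ V
      rw [zero_smul, add_zero]
      exact hy
    · right
      have : y + (1 : ZMod 2) • v + v = y := by
        rw [one_smul, add_assoc, add_self_two, add_zero]
      show y + (1 : ZMod 2) • v + v ∈ V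
      rw [this]; exact hy
  · rintro (h | h)
    · exact ⟨x, h, 0, Submodule.zero_mem _, by simp⟩
    · refine ⟨x + v, h, v, Submodule.mem_span_singleton_self v, ?_⟩
      rw [add_assoc, add_self_two, add_zero]

variable [Fintype E] [DecidableEq E]

open Classical in
/-- The points not covered by `V + S`. -/
noncomputable def unc (S : Finset E) (V : Submodule (ZMod 2) E) : Finset E :=
  univ.filter (fun x => ∀ s ∈ S, x + s ∉ V)

lemma mem_unc {S : Finset E} {V : Submodule (ZMod 2) E} {x : E} :
    x ∈ unc S V ↔ ∀ s ∈ S, x + s ∉ V := by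
  simp [unc]

lemma unc_sup (S : Finset E) (V : Submodule (ZMod 2) E) (v : E) :
    unc S (V ⊔ Submodule.span (ZMod 2) {v}) = (unc S V).filter (fun x => x + v ∈ unc S V) := by
  ext x
  simp only [mem_unc, mem_sup_span_iff, Finset.mem_filter, not_or]
  constructor
  · intro h
    refine ⟨fun s hs => (h s hs).1, fun s hs => ?_⟩
    have := (h s hs).2
    rwa [show x + v + s = x + s + v by abel]
  · rintro ⟨h1, h2⟩ s hs
    refine ⟨h1 s hs, ?_⟩
    have := h2 s hs
    rwa [show x + v + s = x + s + v by abel] at this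

omit [Module (ZMod 2) E] in
/-- averaging -/
lemma exists_shift (U : Finset E) :
    ∃ v : E, (U.filter (fun x => x + v ∈ U)).card * Fintype.card E ≤ U.card ^ 2 := by
  by_contra hcon
  push Not at hcon
  have hsum : ∑ v : E, (U.filter (fun x => x + v ∈ U)).card = U.card ^ 2 := by
    have h1 : ∀ v : E, (U.filter (fun x => x + v ∈ U)).card
        = ∑ x ∈ U, if x + v ∈ U then 1 else 0 := by
      intro v; rw [Finset.card_filter]
    simp_rw [h1]
    rw [Finset.sum_comm]
    have h2 : ∀ x ∈ U, (∑ v : E, if x + v ∈ U then 1 else 0) = U.card := by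
      intro x _
      rw [← Finset.card_filter]
      refine Finset.card_bij (fun v _ => x + v) ?_ ?_ ?_
      · intro v hv; simpa using hv
      · intro a _ b _ hab; exact add_left_cancel hab
      · intro b hb
        exact ⟨b - x, by simpa using hb, by abel⟩
    rw [Finset.sum_congr rfl h2]
    simp [pow_two]
  have hlt : ∑ v : E, U.card ^ 2 <
      ∑ v : E, (U.filter (fun x => x + v ∈ U)).card * Fintype.card E := by
    apply Finset.sum_lt_sum_of_nonempty
    · exact ⟨0, Finset.mem_univ _⟩
    · intro v _; exact hcon v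
  rw [← Finset.sum_mul, hsum] at hlt
  simp only [Finset.sum_const, Finset.card_univ, smul_eq_mul] at hlt
  rw [mul_comm] at hlt
  exact lt_irrefl _ hlt

omit [DecidableEq E] in
lemma finrank_sup_span (V : Submodule (ZMod 2) E) (v : E) (hv : v ∉ V) :
    Module.finrank (ZMod 2) (V ⊔ Submodule.span (ZMod 2) {v} : Submodule (ZMod 2) E)
      = Module.finrank (ZMod 2) V + 1 := by
  have hv0 : v ≠ 0 := fun h => hv (h ▸ V.zero_mem)
  have hinf : V ⊓ Submodule.span (ZMod 2) {v} = ⊥ := by
    rw [← disjoint_iff]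
    exact (Submodule.disjoint_span_singleton' hv0).2 hv
  have := Submodule.finrank_sup_add_finrank_inf_eq V (Submodule.span (ZMod 2) {v})
  rw [hinf, finrank_bot, finrank_span_singleton hv0] at this
  simpa using this

lemma doubling_step (S : Finset E) (hS : S.Nonempty) (V : Submodule (ZMod 2) E) (hV : V ≠ ⊤) :
    ∃ V' : Submodule (ZMod 2) E,
      Module.finrank (ZMod 2) V' = Module.finrank (ZMod 2) V + 1 ∧
      (unc S V').card * Fintype.card E ≤ (unc S V).card ^ 2 := by
  rcases Finset.eq_empty_or_nonempty (unc S V) with hU | hU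
  · obtain ⟨v, hv⟩ : ∃ v, v ∉ V := by
      by_contra hcon
      push Not at hcon
      exact hV ((Submodule.eq_top_iff').2 hcon)
    refine ⟨V ⊔ Submodule.span (ZMod 2) {v}, finrank_sup_span V v hv, ?_⟩
    rw [unc_sup, hU]
    simp
  · obtain ⟨v, hv⟩ := exists_shift (unc S V)
    have hvV : v ∉ V := by
      intro hmem
      have hfil : (unc S V).filter (fun x => x + v ∈ unc S V) = unc S V := by
        apply Finset.filter_true_of_mem
        intro x hx
        rw [mem_unc] at hx ⊢
        intro s hs h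
        apply hx s hs
        have := V.sub_mem h hmem
        rwa [show x + v + s - v = x + s by abel] at this
      rw [hfil, pow_two] at hv
      have hpos : 0 < (unc S V).card := Finset.card_pos.2 hU
      have h1 : Fintype.card E ≤ (unc S V).card := Nat.le_of_mul_le_mul_left hv hpos
      have h2 : unc S V = univ := by
        apply Finset.eq_univ_of_card
        exact le_antisymm (Finset.card_le_univ _) h1
      obtain ⟨s, hs⟩ := hS
      have h3 : s ∈ unc S V := by rw [h2]; exact Finset.mem_univ _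
      rw [mem_unc] at h3
      apply h3 s hs
      rw [add_self_two]
      exact V.zero_mem
    refine ⟨V ⊔ Submodule.span (ZMod 2) {v}, finrank_sup_span V v hvV, ?_⟩
    rw [unc_sup]
    exact hv

lemma unc_bot_card (S : Finset E) : (unc S ⊥).card + S.card = Fintype.card E := by
  have : unc S ⊥ = Sᶜ := by
    ext x
    rw [mem_unc, Finset.mem_compl]
    constructor
    · intro h hx
      exact h x hx (by rw [add_self_two]; exact Submodule.zero_mem _)
    · intro h s hs hmem
      rw [Submodule.mem_bot] at hmem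
      apply h
      have : x = s := by
        have h2 : x + s + s = x := by rw [add_assoc, add_self_two, add_zero]
        rw [hmem, zero_add] at h2
        exact h2.symm
      rw [this]; exact hs
  rw [this, Finset.card_compl]
  have := Finset.card_le_univ S
  omega

/-- After `t` doublings. -/
lemma doubling (S : Finset E) (hS : S.Nonempty) (t : ℕ) (ht : t ≤ Module.finrank (ZMod 2) E) :
    ∃ V : Submodule (ZMod 2) E, Module.finrank (ZMod 2) V = t ∧
      ((unc S V).card : ℝ) ≤ Fintype.card E *
        (1 - (S.card : ℝ) / Fintype.card E) ^ (2 ^ t) := by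
  have hN : (0 : ℝ) < Fintype.card E := by exact_mod_cast Fintype.card_pos
  induction t with
  | zero =>
    refine ⟨⊥, by simp, ?_⟩
    have h := unc_bot_card S
    have h' : ((unc S (⊥ : Submodule (ZMod 2) E)).card : ℝ) + S.card = Fintype.card E := by
      exact_mod_cast h
    rw [pow_zero, pow_one, mul_sub, mul_one, mul_div_cancel₀ _ hN.ne']
    linarith
  | succ t ih =>
    obtain ⟨V, hVr, hVc⟩ := ih (by omega)
    have hVtop : V ≠ ⊤ := by
      intro h
      rw [h, finrank_top] at hVr
      omega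
    obtain ⟨V', h1, h2⟩ := doubling_step S hS V hVtop
    refine ⟨V', by rw [h1, hVr], ?_⟩
    have h2' : ((unc S V').card : ℝ) * Fintype.card E ≤ ((unc S V).card : ℝ) ^ 2 := by
      exact_mod_cast h2
    have h3 : ((unc S V).card : ℝ) ^ 2 ≤ (Fintype.card E *
        (1 - (S.card : ℝ) / Fintype.card E) ^ (2 ^ t)) ^ 2 := by
      apply pow_le_pow_left₀ (by positivity) hVc
    rw [mul_pow, ← pow_mul, ← pow_succ] at h3
    have h4 : ((unc S V').card : ℝ) * Fintype.card E ≤
        (Fintype.card E * (1 - (S.card : ℝ) / Fintype.card E) ^ (2 ^ (t+1))) * Fintype.card E := by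
      calc _ ≤ _ := h2'
        _ ≤ _ := h3
        _ = _ := by ring
    exact le_of_mul_le_mul_right h4 hN

lemma card_le_unc (S : Finset E) (V : Submodule (ZMod 2) E) (hU : (unc S V).Nonempty) :
    Nat.card V ≤ (unc S V).card := by
  classical
  obtain ⟨x, hx⟩ := hU
  rw [Nat.card_eq_fintype_card, ← Fintype.card_coe]
  refine Fintype.card_le_of_injective
    (fun v : V => (⟨x + v.1, ?_⟩ : {y // y ∈ unc S V})) ?_
  · rw [mem_unc] at hx ⊢
    intro s hs h
    apply hx s hs
    have := V.sub_mem h v.2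
    rwa [show x + v.1 + s - v.1 = x + s by abel] at this
  · intro a b hab
    simp only [Subtype.mk.injEq, add_right_inj] at hab
    exact Subtype.ext hab

/-- The doubling conclusion. -/
lemma exists_cover (S : Finset E) (d m : ℕ) (hE : Fintype.card E = 2 ^ d) (hm : 1 ≤ m)
    (hmd : m ≤ d) (hS : (m : ℝ) * 2 ^ m * Real.log 2 < S.card) :
    ∃ V : Submodule (ZMod 2) E, Nat.card V = 2 ^ (d - m) ∧ ∀ x, ∃ s ∈ S, x + s ∈ V := by
  have hfr : Module.finrank (ZMod 2) E = d := by
    have h1 := Module.natCard_eq_pow_finrank (K := ZMod 2) (V := E)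
    rw [Nat.card_eq_fintype_card, hE, Nat.card_eq_fintype_card, ZMod.card] at h1
    exact (Nat.pow_right_injective (le_refl 2) h1).symm
  have hSpos : 0 < S.card := by
    have h0 : (0 : ℝ) ≤ (m : ℝ) * 2 ^ m * Real.log 2 := by
      have := Real.log_nonneg (by norm_num : (1:ℝ) ≤ 2)
      positivity
    exact_mod_cast lt_of_le_of_lt h0 hS
  obtain ⟨V, hV, hU⟩ := doubling S (Finset.card_pos.1 hSpos) (d - m) (by omega)
  have hVcard : Nat.card V = 2 ^ (d - m) := by
    have h1 := Module.natCard_eq_pow_finrank (K := ZMod 2) (V := V)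
    rw [hV, Nat.card_eq_fintype_card (α := ZMod 2), ZMod.card] at h1
    exact h1
  refine ⟨V, hVcard, ?_⟩
  by_contra hcon
  push Not at hcon
  obtain ⟨x, hx⟩ := hcon
  have hne : (unc S V).Nonempty := ⟨x, mem_unc.2 hx⟩
  have h1 := card_le_unc S V hne
  rw [hVcard] at h1
  have h1' : (2 : ℝ) ^ (d - m) ≤ (unc S V).card := by exact_mod_cast h1
  have h2 := h1'.trans hU
  rw [hE] at h2
  push_cast at h2
  have hSle : (S.card : ℝ) ≤ 2 ^ d := by
    have := Finset.card_le_univ S
    rw [hE] at this
    exact_mod_cast this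
  have h3 : (1 - (S.card : ℝ) / 2 ^ d) ^ (2 ^ (d - m)) ≤ Real.exp (-(S.card / 2 ^ m)) := by
    have h4 : 1 - (S.card : ℝ) / 2 ^ d ≤ Real.exp (-((S.card : ℝ) / 2 ^ d)) := by
      have := Real.add_one_le_exp (-((S.card : ℝ) / 2 ^ d))
      linarith
    have h5 : 0 ≤ 1 - (S.card : ℝ) / 2 ^ d := by
      rw [sub_nonneg, div_le_one (by positivity)]
      exact hSle
    calc (1 - (S.card : ℝ) / 2 ^ d) ^ (2 ^ (d - m))
        ≤ Real.exp (-((S.card : ℝ) / 2 ^ d)) ^ (2 ^ (d - m)) := pow_le_pow_left₀ h5 h4 _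
      _ = Real.exp (-(S.card / 2 ^ m)) := by
          rw [← Real.exp_nat_mul]
          congr 1
          push_cast
          have h6 : (2 : ℝ) ^ d = 2 ^ (d - m) * 2 ^ m := by
            rw [← pow_add]; congr 1; omega
          rw [h6]
          field_simp
  have h7 : Real.exp (-((S.card : ℝ) / 2 ^ m)) < (2 ^ m)⁻¹ := by
    have h8 : (m : ℝ) * Real.log 2 < (S.card : ℝ) / 2 ^ m := by
      rw [lt_div_iff₀ (by positivity)]
      linarith
    calc Real.exp (-((S.card : ℝ) / 2 ^ m)) < Real.exp (-((m : ℝ) * Real.log 2)) := by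
          apply Real.exp_lt_exp.2; linarith
      _ = (2 ^ m)⁻¹ := by
          rw [Real.exp_neg, Real.exp_nat_mul, Real.exp_log (by norm_num)]
  have h9 : (2 : ℝ) ^ d * (2 ^ m)⁻¹ = 2 ^ (d - m) := by
    have h6 : (2 : ℝ) ^ d = 2 ^ (d - m) * 2 ^ m := by
      rw [← pow_add]; congr 1; omega
    rw [h6]
    field_simp
  have h10 : (2 : ℝ) ^ d * (1 - (S.card : ℝ) / 2 ^ d) ^ (2 ^ (d - m)) < 2 ^ (d - m) := by
    rw [← h9]
    apply mul_lt_mul_of_pos_left (lt_of_le_of_lt h3 h7) (by positivity)
  linarith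

end Doubling

/-- The indicator vector of a set of coordinates. -/
def ind {n : ℕ} (A : Finset (Fin n)) : Fin n → ZMod 2 := fun i => if i ∈ A then 1 else 0

lemma ind_injective {n : ℕ} : Function.Injective (ind (n := n)) := by
  intro A B h
  ext i
  have := congrFun h i
  simp only [ind] at this
  by_cases h1 : i ∈ A <;> by_cases h2 : i ∈ B <;> simp_all

lemma ind_eq_sum {n : ℕ} (A : Finset (Fin n)) : ind A = ∑ i ∈ A, Pi.single i (1 : ZMod 2) := by
  ext j
  simp [ind, Finset.sum_apply, Pi.single_apply]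

/-- **Start code.** -/
theorem exists_start (n r m : ℕ) (hm : 1 ≤ m)
    (h : (m : ℝ) * 2 ^ m * Real.log 2 < (n.choose r : ℝ)) :
    ∃ V : Submodule (ZMod 2) (Fin n → ZMod 2), Nat.card (( Fin n → ZMod 2) ⧸ V) = 2 ^ m ∧
      ∀ w : (Fin n → ZMod 2) ⧸ V, ∃ A : Finset (Fin n), A.card = r ∧
        ∑ i ∈ A, V.mkQ (Pi.single i 1) = w := by
  classical
  set S : Finset (Fin n → ZMod 2) := (Finset.powersetCard r univ).image ind with hSdef
  have hScard : S.card = n.choose r := by
    rw [hSdef, Finset.card_image_of_injective _ ind_injective, Finset.card_powersetCard,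
      Finset.card_univ, Fintype.card_fin]
  have hcard : Fintype.card (Fin n → ZMod 2) = 2 ^ n := by
    simp [ZMod.card]
  have hmn : m ≤ n := by
    by_contra hlt
    push Not at hlt
    have h1 : n.choose r ≤ 2 ^ n := Nat.choose_le_two_pow n r
    have h2 : (n.choose r : ℝ) ≤ 2 ^ n := by exact_mod_cast h1
    have h3 : (2 : ℝ) ^ (n + 1) ≤ 2 ^ m := pow_le_pow_right₀ (by norm_num) hlt
    have h4 : (0.6931471803 : ℝ) < Real.log 2 := Real.log_two_gt_d9
    have h5 : (1 : ℝ) ≤ m := by exact_mod_cast hm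
    have h6 : (2 : ℝ) ^ (n + 1) * 0.6 ≤ (m : ℝ) * 2 ^ m * Real.log 2 := by
      have : (2 : ℝ) ^ (n + 1) ≤ (m : ℝ) * 2 ^ m := by
        nlinarith [pow_pos (by norm_num : (0:ℝ) < 2) m]
      nlinarith [pow_pos (by norm_num : (0:ℝ) < 2) (n + 1)]
    have h7 : (2 : ℝ) ^ (n + 1) = 2 * 2 ^ n := by ring
    have h8 : (0 : ℝ) < 2 ^ n := by positivity
    nlinarith
  obtain ⟨V, hV, hcov⟩ := exists_cover S n m hcard hm hmn (by rw [hScard]; exact h)
  refine ⟨V, ?_, ?_⟩
  · have h1 := Submodule.card_eq_card_quotient_mul_card V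
    rw [hV, Nat.card_eq_fintype_card (α := Fin n → ZMod 2), hcard] at h1
    have h2 : 2 ^ n = 2 ^ (n - m) * 2 ^ m := by rw [← pow_add]; congr 1; omega
    rw [h2] at h1
    have h3 : 0 < 2 ^ (n - m) := by positivity
    nlinarith [Nat.eq_of_mul_eq_mul_left h3 (by linarith : 2 ^ (n - m) * 2 ^ m = 2 ^ (n - m) * Nat.card ((Fin n → ZMod 2) ⧸ V))]
  · intro w
    obtain ⟨x, rfl⟩ := V.mkQ_surjective w
    obtain ⟨s, hs, hx⟩ := hcov x
    rw [hSdef, Finset.mem_image] at hs
    obtain ⟨A, hA, rfl⟩ := hs
    refine ⟨A, (Finset.mem_powersetCard.1 hA).2, ?_⟩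
    rw [← map_sum, ← ind_eq_sum]
    rw [Submodule.mkQ_apply, Submodule.mkQ_apply, Submodule.Quotient.eq]
    have : ind A - x = x + ind A := by
      have h2 : x + x = 0 := add_self_two x
      have : -x = x := neg_eq_of_add_eq_zero_left h2
      rw [sub_eq_add_neg, this, add_comm]
    rw [this]
    exact hx

end Pool.Agent.MP073f2d
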