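import Mathlib
import Pool.Prelude.Def_F_7905cbea
import Pool.Agent.Work.MP_073f2d_co.Start

/-!
# From column systems to covering subspaces, and the Vandermonde blow-up
-/

namespace Pool.Agent.MP073f2d

open Finset N8b55e67f
open scoped ENNReal Pointwise Matrix

lemma ind_filter_ne_zero {n : ℕ} (x : 𝔽₂ n) : ind (univ.filter (fun i => x i ≠ 0)) = x := by
  ext i
  simp only [ind, Finset.mem_filter, Finset.mem_univ, true_and]
  have h : ∀ a : ZMod 2, (if a ≠ 0 then (1 : ZMod 2) else 0) = a := by decide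
  rw [h]

lemma hammingNorm_ind {n : ℕ} (A : Finset (Fin n)) : hammingNorm (ind A) = A.card := by
  unfold hammingNorm
  congr 1
  ext i
  simp [ind]

/-- `∑_{i ≤ r} C(n,i) ≤ C(n+r, r)` -/
lemma card_ball_le (n r : ℕ) : Nat.card (hammingBall n r) ≤ (n + r).choose r := by
  classical
  set T : Finset (Finset (Fin n)) := univ.filter (fun A => A.card ≤ r) with hT
  have h1 : hammingBall n r ⊆ ((T.image ind : Finset (𝔽₂ n)) : Set (𝔽₂ n)) := by
    intro x hx
    rw [Finset.coe_image]
    refine ⟨univ.filter (fun i => x i ≠ 0), ?_, ind_filter_ne_zero x⟩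
    rw [hT]
    simp only [Finset.coe_filter, Finset.mem_univ, true_and, Set.mem_ofPred_eq]
    exact hx
  have h2 : Nat.card (hammingBall n r) ≤ T.card := by
    rw [Nat.card_coe_set_eq]
    calc (hammingBall n r).ncard ≤ ((T.image ind : Finset (𝔽₂ n)) : Set (𝔽₂ n)).ncard :=
          Set.ncard_le_ncard h1 (Finset.finite_toSet _)
      _ = (T.image ind).card := Set.ncard_coe_finset _
      _ ≤ T.card := Finset.card_image_le
  refine h2.trans ?_
  have h3 : T.card = ∑ i ∈ range (r + 1), n.choose i := by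
    rw [hT, Finset.card_eq_sum_card_fiberwise (f := Finset.card) (t := range (r + 1))]
    · apply Finset.sum_congr rfl
      intro i hi
      rw [Finset.mem_range] at hi
      have : (univ.filter (fun A : Finset (Fin n) => A.card ≤ r)).filter (fun A => A.card = i)
          = Finset.powersetCard i univ := by
        ext A
        simp only [Finset.mem_filter, Finset.mem_univ, true_and, Finset.mem_powersetCard,
          Finset.subset_univ]
        constructor
        · exact fun h => h.2
        · intro h; exact ⟨by omega, h⟩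
      rw [this, Finset.card_powersetCard, Finset.card_univ, Fintype.card_fin]
    · intro A hA
      simp only [Finset.coe_filter, Finset.mem_univ, true_and, Set.mem_ofPred_eq] at hA
      simp only [Finset.coe_range, Set.mem_Iio]
      omega
  rw [h3, Nat.add_choose_eq, Finset.Nat.sum_antidiagonal_eq_sum_range_succ
    (fun i j => n.choose i * r.choose j)]
  apply Finset.sum_le_sum
  intro i hi
  rw [Finset.mem_range] at hi
  have : 0 < r.choose (r - i) := Nat.choose_pos (by omega)
  nlinarith [Nat.zero_le (n.choose i)]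

/-- A system of columns whose sums of at most `r` terms give everything yields a
covering subspace. -/
theorem minDensity_le {W : Type*} [AddCommGroup W] [Module (ZMod 2) W] [Finite W]
    {ι : Type*} [Fintype ι] (n r : ℕ) (s : ι → W) (hn : Fintype.card ι ≤ n)
    (hs : ∀ w, ∃ A : Finset ι, A.card ≤ r ∧ ∑ i ∈ A, s i = w) :
    minDensity n r ≤ (Nat.card (hammingBall n r) : ℝ≥0∞) / (Nat.card W : ℝ≥0∞) := by
  classical
  obtain ⟨e⟩ : Nonempty (ι ↪ Fin n) := by
    apply Function.Embedding.nonempty_of_card_le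
    simpa using hn
  set s' : Fin n → W := Function.extend e s 0 with hs'
  set φ : 𝔽₂ n →ₗ[ZMod 2] W := Fintype.linearCombination (ZMod 2) s' with hφ
  have hφind : ∀ w, ∃ A : Finset (Fin n), A.card ≤ r ∧ φ (ind A) = w := by
    intro w
    obtain ⟨A, hA, hw⟩ := hs w
    refine ⟨A.map e, by simpa using hA, ?_⟩
    rw [hφ, Fintype.linearCombination_apply]
    have h1 : ∀ i, ind (A.map e) i • s' i = if i ∈ A.map e then s' i else 0 := by
      intro i
      unfold ind
      split_ifs <;> simp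
    simp_rw [h1]
    rw [Finset.sum_ite_mem, Finset.univ_inter, Finset.sum_map, ← hw]
    apply Finset.sum_congr rfl
    intro i _
    rw [hs', e.injective.extend_apply]
  have hsurj : Function.Surjective φ := by
    intro w
    obtain ⟨A, _, hw⟩ := hφind w
    exact ⟨ind A, hw⟩
  have hcov : IsCoveringSubspace n r (LinearMap.ker φ) := by
    unfold IsCoveringSubspace
    rw [Set.eq_univ_iff_forall]
    intro x
    obtain ⟨A, hA, hw⟩ := hφind (φ x)
    rw [Set.mem_add]
    refine ⟨x - ind A, ?_, ind A, ?_, by abel⟩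
    · show x - ind A ∈ LinearMap.ker φ
      rw [LinearMap.mem_ker, map_sub, hw, sub_self]
    · show hammingNorm (ind A) ≤ r
      rw [hammingNorm_ind]; exact hA
  have hcard : Nat.card (LinearMap.ker φ) * Nat.card W = 2 ^ n := by
    have h1 := Submodule.card_eq_card_quotient_mul_card (LinearMap.ker φ)
    have h2 : Nat.card (𝔽₂ n ⧸ LinearMap.ker φ) = Nat.card W :=
      Nat.card_congr (φ.quotKerEquivOfSurjective hsurj).toEquiv
    rw [h2] at h1
    have h3 : Nat.card (𝔽₂ n) = 2 ^ n := by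
      rw [Nat.card_eq_fintype_card]; simp [ZMod.card]
    rw [h3] at h1
    rw [h1]
  have hW : (Nat.card W : ℝ≥0∞) ≠ 0 := by
    have : Nat.card W ≠ 0 := by
      intro h
      rw [h, mul_zero] at hcard
      exact absurd hcard.symm (by positivity)
    exact_mod_cast this
  have hK : (Nat.card (LinearMap.ker φ) : ℝ≥0∞) ≠ 0 := by
    have : Nat.card (LinearMap.ker φ) ≠ 0 := by
      intro h
      rw [h, zero_mul] at hcard
      exact absurd hcard.symm (by positivity)
    exact_mod_cast this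
  unfold minDensity
  refine (iInf₂_le (LinearMap.ker φ) hcov).trans ?_
  have h2n : (2 : ℝ≥0∞) ^ n = (Nat.card (LinearMap.ker φ) : ℝ≥0∞) * (Nat.card W : ℝ≥0∞) := by
    rw [← Nat.cast_mul, hcard]; push_cast; rfl
  rw [h2n]
  rw [ENNReal.mul_div_mul_left _ _ hK (ENNReal.natCast_ne_top _)]

/-- The Vandermonde blow-up. -/
theorem blow {W₀ : Type*} [AddCommGroup W₀] {F : Type*} [Field F]
    (n₀ r : ℕ) (s : Fin n₀ → W₀)
    (hs : ∀ w, ∃ A : Finset (Fin n₀), A.card = r ∧ ∑ i ∈ A, s i = w)
    (β : Fin n₀ → F) (hβ : Function.Injective β) :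
    ∀ w : W₀ × (Fin r → F), ∃ B : Finset (Fin n₀ × F), B.card ≤ r ∧
      ∑ b ∈ B, ((s b.1, fun j : Fin r => β b.1 ^ (j : ℕ) * b.2) : W₀ × (Fin r → F)) = w := by
  classical
  rintro ⟨w, y⟩
  obtain ⟨A, hA, hw⟩ := hs w
  set e := A.orderEmbOfFin hA with he
  set v : Fin r → F := fun j => β (e j) with hv
  have hvinj : Function.Injective v := hβ.comp e.injective
  have hdet : (Matrix.vandermonde v)ᵀ.det ≠ 0 := by
    rw [Matrix.det_transpose]
    exact Matrix.det_vandermonde_ne_zero_iff.2 hvinj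
  have hunit : IsUnit (Matrix.vandermonde v)ᵀ.det := isUnit_iff_ne_zero.2 hdet
  set x : Fin r → F := (Matrix.vandermonde v)ᵀ⁻¹.mulVec y with hx
  have hxy : (Matrix.vandermonde v)ᵀ.mulVec x = y := by
    rw [hx, Matrix.mulVec_mulVec, Matrix.mul_nonsing_inv _ hunit, Matrix.one_mulVec]
  have hinj : Function.Injective (fun l : Fin r => ((e l, x l) : Fin n₀ × F)) := by
    intro a b hab
    exact e.injective (congrArg Prod.fst hab)
  refine ⟨univ.map ⟨_, hinj⟩, by simp, ?_⟩
  rw [Finset.sum_map]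
  simp only [Function.Embedding.coeFn_mk]
  ext1
  · rw [Prod.fst_sum]
    show ∑ l : Fin r, s (e l) = w
    rw [← hw]
    conv_rhs => rw [← Finset.map_orderEmbOfFin_univ A hA]
    rw [Finset.sum_map]
    rfl
  · rw [Prod.snd_sum]
    funext j
    rw [Finset.sum_apply]
    show ∑ l : Fin r, β (e l) ^ (j : ℕ) * x l = y j
    have := congrFun hxy j
    rw [← this]
    rfl

/-- Combination: the start code blown up by `2^k`. -/
theorem minDensity_bound (n r n₀ m k : ℕ) (hm : 1 ≤ m)
    (h : (m : ℝ) * 2 ^ m * Real.log 2 < (n₀.choose r : ℝ)) (hk0 : k ≠ 0) (hk : n₀ ≤ 2 ^ k)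
    (hn : n₀ * 2 ^ k ≤ n) :
    minDensity n r ≤ ENNReal.ofReal (((n : ℝ) + r) ^ r / (r.factorial * 2 ^ m * (2 ^ k) ^ r)) := by
  classical
  obtain ⟨V, hV, hcov⟩ := exists_start n₀ r m hm h
  have : Fintype (GaloisField 2 k) := Fintype.ofFinite _
  have hF : Fintype.card (GaloisField 2 k) = 2 ^ k := by
    rw [← Nat.card_eq_fintype_card, GaloisField.card 2 k hk0]
  obtain ⟨β⟩ : Nonempty (Fin n₀ ↪ GaloisField 2 k) := by
    apply Function.Embedding.nonempty_of_card_le
    rw [Fintype.card_fin, hF]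
    exact hk
  have h1 := minDensity_le (W := ((Fin n₀ → ZMod 2) ⧸ V) × (Fin r → GaloisField 2 k)) n r
    (fun b : Fin n₀ × GaloisField 2 k =>
      ((V.mkQ (Pi.single b.1 1), fun j : Fin r => β b.1 ^ (j : ℕ) * b.2) :
        ((Fin n₀ → ZMod 2) ⧸ V) × (Fin r → GaloisField 2 k)))
    (by rw [Fintype.card_prod, Fintype.card_fin, hF]; exact hn)
    (blow n₀ r (fun i => V.mkQ (Pi.single i 1)) hcov β β.injective)
  refine h1.trans ?_
  have hcard : Nat.card (((Fin n₀ → ZMod 2) ⧸ V) × (Fin r → GaloisField 2 k))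
      = 2 ^ m * (2 ^ k) ^ r := by
    rw [Nat.card_prod, hV, Nat.card_fun, Nat.card_eq_fintype_card (α := GaloisField 2 k), hF]
    simp
  rw [hcard]
  have hball : (Nat.card (hammingBall n r) : ℝ) ≤ ((n : ℝ) + r) ^ r / r.factorial := by
    calc (Nat.card (hammingBall n r) : ℝ) ≤ ((n + r).choose r : ℝ) := by
          exact_mod_cast card_ball_le n r
      _ ≤ ((n + r : ℕ) : ℝ) ^ r / r.factorial := Nat.choose_le_pow_div r (n + r)
      _ = _ := by push_cast; rfl
  have h2 : (Nat.card (hammingBall n r) : ℝ≥0∞) / ((2 ^ m * (2 ^ k) ^ r : ℕ) : ℝ≥0∞)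
      = ENNReal.ofReal ((Nat.card (hammingBall n r) : ℝ) / ((2 ^ m * (2 ^ k) ^ r : ℕ) : ℝ)) := by
    rw [ENNReal.ofReal_div_of_pos (by positivity), ENNReal.ofReal_natCast, ENNReal.ofReal_natCast]
  rw [h2]
  apply ENNReal.ofReal_le_ofReal
  push_cast
  rw [div_le_div_iff₀ (by positivity) (by positivity)]
  have h3 : (Nat.card (hammingBall n r) : ℝ) * r.factorial ≤ ((n : ℝ) + r) ^ r := by
    rwa [le_div_iff₀ (by positivity)] at hball
  have h4 : (0 : ℝ) < 2 ^ m * (2 ^ k) ^ r := by positivity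
  calc (Nat.card (hammingBall n r) : ℝ) * (r.factorial * 2 ^ m * (2 ^ k) ^ r)
      = ((Nat.card (hammingBall n r) : ℝ) * r.factorial) * (2 ^ m * (2 ^ k) ^ r) := by ring
    _ ≤ ((n : ℝ) + r) ^ r * (2 ^ m * (2 ^ k) ^ r) := by
        apply mul_le_mul_of_nonneg_right h3 h4.le

end Pool.Agent.MP073f2d
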