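import Mathlib
import Pool.Prelude.Def_F_7905cbea
import Pool.Agent.Work.MP_073f2d_co.Blow

/-!
# Asymptotics: upper bounds for `f` and `f_all`
-/

namespace Pool.Agent.MP073f2d

open Finset N8b55e67f Filter
open scoped ENNReal Pointwise Matrix

lemma log_two_pos' : 0 < Real.log 2 := Real.log_pos (by norm_num)

/-- product estimate -/
lemma pow_le_exp_mul_choose (N r a : ℕ) (hr : 1 ≤ r) (hN : r ≤ N) :
    ((N : ℝ) + a) ^ r ≤ Real.exp ((r : ℝ) * (a + r - 1) / (N + 1 - r)) *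
      (r.factorial * (N.choose r : ℝ)) := by
  have hrN : (r : ℝ) ≤ N := by exact_mod_cast hN
  have hr1 : (1 : ℝ) ≤ r := by exact_mod_cast hr
  have hD : (0 : ℝ) < (N : ℝ) + 1 - r := by linarith
  have ha : (0 : ℝ) ≤ a := Nat.cast_nonneg a
  have h1 : ((N : ℝ) + 1 - r) ^ r ≤ r.factorial * (N.choose r : ℝ) := by
    have h2 := Nat.pow_sub_le_descFactorial N r
    rw [Nat.descFactorial_eq_factorial_mul_choose] at h2
    have h3 : (((N + 1 - r : ℕ) : ℝ)) ^ r ≤ r.factorial * (N.choose r : ℝ) := by exact_mod_cast h2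
    rwa [Nat.cast_sub (by omega), Nat.cast_add, Nat.cast_one] at h3
  have h4 : (N : ℝ) + a ≤ Real.exp (((a : ℝ) + r - 1) / (N + 1 - r)) * ((N : ℝ) + 1 - r) := by
    have h5 := Real.add_one_le_exp (((a : ℝ) + r - 1) / (N + 1 - r))
    calc (N : ℝ) + a = (((a : ℝ) + r - 1) / (N + 1 - r) + 1) * ((N : ℝ) + 1 - r) := by
          field_simp; ring
      _ ≤ _ := mul_le_mul_of_nonneg_right h5 hD.le
  calc ((N : ℝ) + a) ^ r
      ≤ (Real.exp (((a : ℝ) + r - 1) / (N + 1 - r)) * ((N : ℝ) + 1 - r)) ^ r :=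
        pow_le_pow_left₀ (by positivity) h4 r
    _ = Real.exp ((r : ℝ) * (a + r - 1) / (N + 1 - r)) * ((N : ℝ) + 1 - r) ^ r := by
        rw [mul_pow, ← Real.exp_nat_mul, mul_div_assoc]
    _ ≤ _ := mul_le_mul_of_nonneg_left h1 (Real.exp_pos _).le

lemma log_choose_le (N r : ℕ) (hr : 1 ≤ r) (hN : r ≤ N) :
    Real.log (N.choose r : ℝ) ≤ r * (1 + Real.log ((N : ℝ) / r)) := by
  have hr0 : (0 : ℝ) < r := by exact_mod_cast hr
  have hN0 : (0 : ℝ) < N := by exact_mod_cast (by omega : 0 < N)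
  have h1 : (N.choose r : ℝ) ≤ (N : ℝ) ^ r / r.factorial := Nat.choose_le_pow_div r N
  have h2 : (r : ℝ) ^ r / r.factorial ≤ Real.exp r := Real.pow_div_factorial_le_exp _ hr0.le _
  have h3 : (N.choose r : ℝ) ≤ ((N : ℝ) / r) ^ r * Real.exp r := by
    refine h1.trans ?_
    calc (N : ℝ) ^ r / r.factorial = ((N : ℝ) / r) ^ r * ((r : ℝ) ^ r / r.factorial) := by
          rw [div_pow]; field_simp
      _ ≤ _ := mul_le_mul_of_nonneg_left h2 (by positivity)
  have hpos : (0 : ℝ) < N.choose r := by exact_mod_cast Nat.choose_pos hN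
  calc Real.log (N.choose r : ℝ) ≤ Real.log (((N : ℝ) / r) ^ r * Real.exp r) :=
        Real.log_le_log hpos h3
    _ = r * (1 + Real.log ((N : ℝ) / r)) := by
        rw [Real.log_mul (by positivity) (Real.exp_pos _).ne', Real.log_exp, Real.log_pow]
        ring

/-- The threshold value of `m`. -/
lemma exists_threshold (C : ℕ) (hC : 2 ≤ C) :
    ∃ m : ℕ, 1 ≤ m ∧ (m : ℝ) * 2 ^ m * Real.log 2 < C ∧
      (C : ℝ) ≤ ((m + 1 : ℕ) : ℝ) * 2 ^ (m + 1) * Real.log 2 ∧
      (m : ℝ) * Real.log 2 ≤ Real.log C := by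
  have hl2 := Real.log_two_lt_d9
  have hl2' := Real.log_two_gt_d9
  have hCr : (2 : ℝ) ≤ C := by exact_mod_cast hC
  have hex : ∃ m : ℕ, (C : ℝ) ≤ ((m + 1 : ℕ) : ℝ) * 2 ^ (m + 1) * Real.log 2 := by
    refine ⟨C, ?_⟩
    push_cast
    have h1 : (2 : ℝ) ≤ 2 ^ (C + 1) := by
      calc (2 : ℝ) = 2 ^ 1 := by norm_num
        _ ≤ 2 ^ (C + 1) := pow_le_pow_right₀ (by norm_num) (by omega)
    have h2 : (1 : ℝ) ≤ 2 ^ (C + 1) * Real.log 2 := by nlinarith
    calc (C : ℝ) ≤ ((C : ℝ) + 1) * 1 := by linarith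
      _ ≤ ((C : ℝ) + 1) * (2 ^ (C + 1) * Real.log 2) := by
          apply mul_le_mul_of_nonneg_left h2; positivity
      _ = _ := by ring
  classical
  set m := Nat.find hex with hm
  have hspec := Nat.find_spec hex
  rw [← hm] at hspec
  have hm1 : 1 ≤ m := by
    by_contra h0
    have : m = 0 := by omega
    rw [this] at hspec
    norm_num at hspec
    nlinarith
  have hlt : (m : ℝ) * 2 ^ m * Real.log 2 < C := by
    have := Nat.find_min hex (m := m - 1) (by omega)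
    rw [not_le, Nat.sub_add_cancel hm1] at this
    exact this
  refine ⟨m, hm1, hlt, hspec, ?_⟩
  have h2m : (2 : ℝ) ^ m ≤ C := by
    rcases Nat.lt_or_ge m 2 with h | h
    · have : m = 1 := by omega
      rw [this]; simpa using hCr
    · have h2 : (2 : ℝ) ≤ m := by exact_mod_cast h
      have h3 : (1 : ℝ) ≤ m * Real.log 2 := by nlinarith
      calc (2 : ℝ) ^ m = 1 * 2 ^ m := by ring
        _ ≤ (m * Real.log 2) * 2 ^ m := mul_le_mul_of_nonneg_right h3 (by positivity)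
        _ ≤ C := by linarith
  calc (m : ℝ) * Real.log 2 = Real.log (2 ^ m) := by rw [Real.log_pow]
    _ ≤ Real.log C := Real.log_le_log (by positivity) h2m

lemma two_le_choose (N r : ℕ) (hr : 1 ≤ r) (hN : r < N) : 2 ≤ N.choose r := by
  have h1 : N ≤ N.choose r := by
    obtain ⟨M, rfl⟩ : ∃ M, N = M + 1 := ⟨N - 1, by omega⟩
    obtain ⟨q, rfl⟩ : ∃ q, r = q + 1 := ⟨r - 1, by omega⟩
    have h := Nat.add_one_mul_choose_eq M q
    -- (M+1) * C(M,q) = C(M+1,q+1) * (q+1)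
    have h2 : (q + 1) ≤ M.choose q := by
      have : (q + 1).choose q ≤ M.choose q := Nat.choose_le_choose q (by omega)
      simpa using this
    have h3 : (M + 1) * (q + 1) ≤ (M + 1).choose (q + 1) * (q + 1) := by
      calc (M + 1) * (q + 1) ≤ (M + 1) * M.choose q := Nat.mul_le_mul_left _ h2
        _ = _ := h
    exact Nat.le_of_mul_le_mul_right h3 (by omega)
  omega

/-- monotone envelope used in both bounds -/
lemma exp_env_le (N₀ n₀ r : ℕ) (hr : 1 ≤ r) (h0 : r < N₀) (h1 : N₀ ≤ n₀) :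
    Real.exp ((r : ℝ) * ((2 : ℕ) + r - 1) / (n₀ + 1 - r)) ≤
      Real.exp ((r : ℝ) * (r + 1) / (N₀ + 1 - r)) := by
  have hrN : (r : ℝ) < N₀ := by exact_mod_cast h0
  have hn : (N₀ : ℝ) ≤ n₀ := by exact_mod_cast h1
  have hr1 : (1 : ℝ) ≤ r := by exact_mod_cast hr
  apply Real.exp_le_exp.2
  have : (r : ℝ) * (((2 : ℕ) : ℝ) + r - 1) = (r : ℝ) * (r + 1) := by push_cast; ring
  rw [this]
  apply div_le_div_of_nonneg_left (by positivity) (by linarith) (by linarith)

/-- Upper bound for the limsup. -/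
theorem f_all_le (r N₀ : ℕ) (hr : 1 ≤ r) (hN : r < N₀) :
    f_all r ≤ ENNReal.ofReal (2 * (r * (1 + Real.log (2 * (N₀ : ℝ) / r)) + Real.log 2) *
      Real.exp ((r : ℝ) * (r + 1) / (N₀ + 1 - r))) := by
  unfold f_all
  refine Filter.limsup_le_of_le (h := ?_)
  rw [Filter.eventually_atTop]
  obtain ⟨K, hK⟩ : ∃ K : ℕ, 2 * N₀ ≤ 2 ^ K := ⟨2 * N₀, Nat.lt_two_pow_self.le⟩
  have hN0 : 0 < N₀ := by omega
  refine ⟨N₀ * 2 ^ K, fun n hn => ?_⟩
  have hr0 : (0 : ℝ) < r := by exact_mod_cast hr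
  set k := Nat.log 2 (n / N₀) with hk
  have hdiv : 2 ^ K ≤ n / N₀ := by
    rw [Nat.le_div_iff_mul_le hN0, mul_comm]
    exact hn
  have hdiv0 : n / N₀ ≠ 0 := by
    have : 0 < 2 ^ K := by positivity
    omega
  have hkK : K ≤ k := (Nat.le_log_iff_pow_le (by norm_num) hdiv0).2 hdiv
  have hklow : 2 ^ k ≤ n / N₀ := Nat.pow_log_le_self 2 hdiv0
  have hkup : n / N₀ < 2 ^ (k + 1) := Nat.lt_pow_succ_log_self (by norm_num) _
  have hpk : 0 < 2 ^ k := by positivity
  set n₀ := n / 2 ^ k with hn₀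
  have hn₀low : N₀ ≤ n₀ := by
    rw [hn₀, Nat.le_div_iff_mul_le hpk]
    rw [Nat.le_div_iff_mul_le hN0] at hklow
    linarith
  have hn₀up : n₀ < 2 * N₀ := by
    rw [hn₀, Nat.div_lt_iff_lt_mul hpk]
    rw [Nat.div_lt_iff_lt_mul hN0, pow_succ] at hkup
    linarith
  have hkk : 2 * N₀ ≤ 2 ^ k := hK.trans (Nat.pow_le_pow_right (by norm_num) hkK)
  have hk0 : k ≠ 0 := by
    intro h
    rw [h] at hkk
    omega
  have hrn₀ : r < n₀ := by omega
  obtain ⟨m, hm1, hmlt, hmge, hmlog⟩ := exists_threshold (n₀.choose r) (two_le_choose n₀ r hr hrn₀)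
  have hb := minDensity_bound n r n₀ m k hm1 hmlt hk0 (by omega) (Nat.div_mul_le_self n (2 ^ k))
  refine hb.trans (ENNReal.ofReal_le_ofReal ?_)
  have hfac : (0 : ℝ) < r.factorial := by exact_mod_cast Nat.factorial_pos r
  have hn_up : (n : ℝ) + r ≤ ((n₀ : ℝ) + 2) * 2 ^ k := by
    have h1 : n < (n₀ + 1) * 2 ^ k := by
      rw [hn₀]
      have := Nat.lt_div_mul_add (a := n) hpk
      linarith
    have h2 : n + r ≤ (n₀ + 2) * 2 ^ k := by
      have : r ≤ 2 ^ k := by omega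
      nlinarith
    exact_mod_cast h2
  have hstep1 : ((n : ℝ) + r) ^ r / (r.factorial * 2 ^ m * (2 ^ k) ^ r)
      ≤ ((n₀ : ℝ) + 2) ^ r / (r.factorial * 2 ^ m) := by
    rw [div_le_div_iff₀ (by positivity) (by positivity)]
    have h1 : ((n : ℝ) + r) ^ r ≤ (((n₀ : ℝ) + 2) * 2 ^ k) ^ r :=
      pow_le_pow_left₀ (by positivity) hn_up r
    rw [mul_pow] at h1
    calc ((n : ℝ) + r) ^ r * (r.factorial * 2 ^ m)
        ≤ (((n₀ : ℝ) + 2) ^ r * (2 ^ k) ^ r) * (r.factorial * 2 ^ m) :=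
          mul_le_mul_of_nonneg_right h1 (by positivity)
      _ = _ := by ring
  refine hstep1.trans ?_
  have hCpos : (0 : ℝ) < n₀.choose r := by exact_mod_cast Nat.choose_pos hrn₀.le
  -- (n₀+2)^r ≤ exp * r! * C
  have hprod := pow_le_exp_mul_choose n₀ r 2 hr hrn₀.le
  have henv := exp_env_le N₀ n₀ r hr hN hn₀low
  set X := Real.exp ((r : ℝ) * (r + 1) / (N₀ + 1 - r)) with hX
  have hXpos : 0 < X := Real.exp_pos _
  have h1 : ((n₀ : ℝ) + 2) ^ r ≤ X * (r.factorial * (n₀.choose r : ℝ)) := by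
    refine hprod.trans ?_
    exact mul_le_mul_of_nonneg_right henv (by positivity)
  have h2 : (n₀.choose r : ℝ) / 2 ^ m ≤ 2 * (m * Real.log 2 + Real.log 2) := by
    rw [div_le_iff₀ (by positivity)]
    calc (n₀.choose r : ℝ) ≤ _ := hmge
      _ = _ := by push_cast; ring
  have h3 : (m : ℝ) * Real.log 2 ≤ r * (1 + Real.log (2 * (N₀ : ℝ) / r)) := by
    refine hmlog.trans ((log_choose_le n₀ r hr hrn₀.le).trans ?_)
    apply mul_le_mul_of_nonneg_left _ hr0.le
    have hn0pos : (0 : ℝ) < n₀ := by exact_mod_cast (by omega : 0 < n₀)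
    have h4 : Real.log ((n₀ : ℝ) / r) ≤ Real.log (2 * (N₀ : ℝ) / r) := by
      apply Real.log_le_log (by positivity)
      apply div_le_div_of_nonneg_right _ hr0.le
      have : (n₀ : ℝ) < 2 * N₀ := by exact_mod_cast hn₀up
      exact this.le
    linarith
  calc ((n₀ : ℝ) + 2) ^ r / (r.factorial * 2 ^ m)
      ≤ X * (r.factorial * (n₀.choose r : ℝ)) / (r.factorial * 2 ^ m) :=
        div_le_div_of_nonneg_right h1 (by positivity)
    _ = X * ((n₀.choose r : ℝ) / 2 ^ m) := by field_simp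
    _ ≤ X * (2 * (r * (1 + Real.log (2 * (N₀ : ℝ) / r)) + Real.log 2)) := by
        apply mul_le_mul_of_nonneg_left _ hXpos.le
        linarith
    _ = _ := by ring

/-- Upper bound for the liminf. -/
theorem f_le (r N₀ : ℕ) (hr : 1 ≤ r) (hN : r < N₀) :
    f r ≤ ENNReal.ofReal ((r * (1 + Real.log ((N₀ : ℝ) / r)) + Real.log 2) *
      Real.exp ((r : ℝ) * (r + 1) / (N₀ + 1 - r))) := by
  have hr0 : (0 : ℝ) < r := by exact_mod_cast hr
  have hl2 := log_two_pos'
  obtain ⟨m', hm1, hmlt, hmge, hmlog⟩ := exists_threshold (N₀.choose r) (two_le_choose N₀ r hr hN)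
  set m := m' + 1 with hm
  have hmlog2 : (m : ℝ) * Real.log 2 ≤ r * (1 + Real.log ((N₀ : ℝ) / r)) + Real.log 2 := by
    have h1 := hmlog.trans (log_choose_le N₀ r hr hN.le)
    rw [hm]; push_cast; linarith
  -- choose n₀ minimal
  have hex : ∃ n : ℕ, (m : ℝ) * 2 ^ m * Real.log 2 < (n.choose r : ℝ) := by
    obtain ⟨M, hM⟩ := exists_nat_gt ((r.factorial : ℝ) * ((m : ℝ) * 2 ^ m * Real.log 2))
    refine ⟨M + r, ?_⟩
    have h2 := Nat.pow_sub_le_descFactorial (M + r) r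
    rw [Nat.descFactorial_eq_factorial_mul_choose, show M + r + 1 - r = M + 1 by omega] at h2
    have h3 : M + 1 ≤ (M + 1) ^ r := Nat.le_self_pow (by omega) _
    have h4 : (M : ℝ) < r.factorial * ((M + r).choose r : ℝ) := by
      exact_mod_cast lt_of_lt_of_le (Nat.lt_succ_self M) (h3.trans h2)
    have hfac : (0 : ℝ) < r.factorial := by exact_mod_cast Nat.factorial_pos r
    exact lt_of_mul_lt_mul_left (hM.trans h4) hfac.le
  classical
  set n₀ := Nat.find hex with hn₀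
  have hspec := Nat.find_spec hex
  rw [← hn₀] at hspec
  have hn₀N : N₀ < n₀ := by
    by_contra hcon
    push Not at hcon
    have h1 : n₀.choose r ≤ N₀.choose r := Nat.choose_le_choose r hcon
    have h2 : (n₀.choose r : ℝ) ≤ N₀.choose r := by exact_mod_cast h1
    linarith
  set N₁ := n₀ - 1 with hN₁
  have hN₁' : N₀ ≤ N₁ := by omega
  have hmin : (N₁.choose r : ℝ) ≤ (m : ℝ) * 2 ^ m * Real.log 2 := by
    have := Nat.find_min hex (m := N₁) (by omega)
    exact not_lt.1 this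
  have hrN₁ : r < N₁ := by omega
  have hfac : (0 : ℝ) < r.factorial := by exact_mod_cast Nat.factorial_pos r
  -- bound for the subsequence
  have hfreq : ∃ᶠ n in atTop, minDensity n r ≤
      ENNReal.ofReal (((n₀ : ℝ) + 1) ^ r / (r.factorial * 2 ^ m)) := by
    rw [Filter.frequently_atTop]
    intro L
    set k := n₀ + r + L with hk
    have hlt : k < 2 ^ k := Nat.lt_two_pow_self
    refine ⟨n₀ * 2 ^ k, ?_, ?_⟩
    · have : 1 ≤ n₀ := by omega
      nlinarith
    · have hb := minDensity_bound (n₀ * 2 ^ k) r n₀ m k (by omega) hspec (by omega) (by omega)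
        le_rfl
      refine hb.trans (ENNReal.ofReal_le_ofReal ?_)
      rw [div_le_div_iff₀ (by positivity) (by positivity)]
      have hr2k : (r : ℝ) ≤ 2 ^ k := by
        have : r ≤ 2 ^ k := by omega
        exact_mod_cast this
      have h1 : (((n₀ * 2 ^ k : ℕ) : ℝ) + r) ^ r ≤ (((n₀ : ℝ) + 1) * 2 ^ k) ^ r := by
        apply pow_le_pow_left₀ (by positivity)
        push_cast
        linarith
      rw [mul_pow] at h1
      calc (((n₀ * 2 ^ k : ℕ) : ℝ) + r) ^ r * (r.factorial * 2 ^ m)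
          ≤ (((n₀ : ℝ) + 1) ^ r * (2 ^ k) ^ r) * (r.factorial * 2 ^ m) :=
            mul_le_mul_of_nonneg_right h1 (by positivity)
        _ = _ := by ring
  have hfle : f r ≤ ENNReal.ofReal (((n₀ : ℝ) + 1) ^ r / (r.factorial * 2 ^ m)) := by
    unfold f
    exact Filter.liminf_le_of_frequently_le' hfreq
  refine hfle.trans (ENNReal.ofReal_le_ofReal ?_)
  have hprod := pow_le_exp_mul_choose N₁ r 2 hr hrN₁.le
  have henv := exp_env_le N₀ N₁ r hr hN hN₁'
  set X := Real.exp ((r : ℝ) * (r + 1) / (N₀ + 1 - r)) with hX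
  have hXpos : 0 < X := Real.exp_pos _
  have hcast : (n₀ : ℝ) + 1 = (N₁ : ℝ) + ((2 : ℕ) : ℝ) := by
    have : n₀ = N₁ + 1 := by omega
    rw [this]; push_cast; ring
  rw [hcast]
  have h1 : ((N₁ : ℝ) + ((2 : ℕ) : ℝ)) ^ r ≤ X * (r.factorial * (N₁.choose r : ℝ)) := by
    refine hprod.trans ?_
    exact mul_le_mul_of_nonneg_right henv (by positivity)
  have h2 : (N₁.choose r : ℝ) / 2 ^ m ≤ m * Real.log 2 := by
    rw [div_le_iff₀ (by positivity)]
    linarith
  calc ((N₁ : ℝ) + ((2 : ℕ) : ℝ)) ^ r / (r.factorial * 2 ^ m)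
      ≤ X * (r.factorial * (N₁.choose r : ℝ)) / (r.factorial * 2 ^ m) :=
        div_le_div_of_nonneg_right h1 (by positivity)
    _ = X * ((N₁.choose r : ℝ) / 2 ^ m) := by field_simp
    _ ≤ X * (r * (1 + Real.log ((N₀ : ℝ) / r)) + Real.log 2) := by
        apply mul_le_mul_of_nonneg_left _ hXpos.le
        linarith
    _ = _ := by ring

end Pool.Agent.MP073f2d
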