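import Mathlib
import Pool.Prelude.Def_F_7905cbea

/-!
# Codes with few dual weights: characters, walks, and the annihilating polynomial
-/

set_option autoImplicit false

namespace Pool.Agent.MP073f2d.Few

open Finset N8b55e67f

/-- The dual code. -/
def dual {n : ℕ} (V : Submodule (ZMod 2) (𝔽₂ n)) : Submodule (ZMod 2) (𝔽₂ n) where
  carrier := {u | ∀ v ∈ V, ∑ i, u i * v i = 0}
  zero_mem' := by intro v _; simp
  add_mem' := by
    intro a b ha hb v hv
    have h1 := ha v hv
    have h2 := hb v hv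
    simp only [Pi.add_apply, add_mul, Finset.sum_add_distrib, h1, h2, add_zero]
  smul_mem' := by
    intro c a ha v hv
    have h1 := ha v hv
    simp only [Pi.smul_apply, smul_eq_mul, mul_assoc, ← Finset.mul_sum, h1, mul_zero]

lemma mem_dual {n : ℕ} {V : Submodule (ZMod 2) (𝔽₂ n)} {u : 𝔽₂ n} :
    u ∈ dual V ↔ ∀ v ∈ V, ∑ i, u i * v i = 0 := Iff.rfl

open Classical in
/-- The dual code as a finset. -/
noncomputable def dualF {n : ℕ} (V : Submodule (ZMod 2) (𝔽₂ n)) : Finset (𝔽₂ n) :=
  univ.filter (fun u => u ∈ dual V)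

lemma mem_dualF {n : ℕ} {V : Submodule (ZMod 2) (𝔽₂ n)} {u : 𝔽₂ n} :
    u ∈ dualF V ↔ u ∈ dual V := by
  unfold dualF; simp

open Classical in
/-- The set of weights of the nonzero vectors of the dual code. -/
noncomputable def dualWts {n : ℕ} (V : Submodule (ZMod 2) (𝔽₂ n)) : Finset ℕ :=
  ((dualF V).filter (fun u => u ≠ 0)).image (fun u => hammingNorm u)

/-- The sign of an element of `ZMod 2`. -/
def sg (a : ZMod 2) : ℤ := if a = 0 then 1 else -1

lemma sg_add (a b : ZMod 2) : sg (a + b) = sg a * sg b := by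
  revert a b; decide

lemma sg_zero : sg 0 = 1 := rfl

lemma sg_sum {ι : Type*} (s : Finset ι) (f : ι → ZMod 2) :
    sg (∑ i ∈ s, f i) = ∏ i ∈ s, sg (f i) := by
  classical
  induction s using Finset.induction_on with
  | empty => simp [sg_zero]
  | insert a s ha ih => rw [Finset.sum_insert ha, Finset.prod_insert ha, sg_add, ih]

lemma sg_ne_zero {a : ZMod 2} (h : a ≠ 0) : sg a = -1 := by
  unfold sg; rw [if_neg h]

/-- The scalar product. -/
def dp {n : ℕ} (u x : 𝔽₂ n) : ZMod 2 := ∑ i, u i * x i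

lemma dp_add_left {n : ℕ} (u v x : 𝔽₂ n) : dp (u + v) x = dp u x + dp v x := by
  unfold dp; simp only [Pi.add_apply, add_mul, Finset.sum_add_distrib]

lemma dp_add_right {n : ℕ} (u x y : 𝔽₂ n) : dp u (x + y) = dp u x + dp u y := by
  unfold dp; simp only [Pi.add_apply, mul_add, Finset.sum_add_distrib]

lemma dp_zero_right {n : ℕ} (u : 𝔽₂ n) : dp u 0 = 0 := by simp [dp]

lemma dp_zero_left {n : ℕ} (u : 𝔽₂ n) : dp 0 u = 0 := by simp [dp]

lemma dp_single {n : ℕ} (u : 𝔽₂ n) (i : Fin n) : dp u (Pi.single i 1) = u i := by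
  unfold dp
  rw [Finset.sum_eq_single i]
  · simp
  · intro b _ hb; simp [hb]
  · simp

lemma dp_sum_right {n : ℕ} {ι : Type*} (u : 𝔽₂ n) (s : Finset ι) (f : ι → 𝔽₂ n) :
    dp u (∑ j ∈ s, f j) = ∑ j ∈ s, dp u (f j) := by
  classical
  induction s using Finset.induction_on with
  | empty => simp [dp_zero_right]
  | insert a s ha ih => rw [Finset.sum_insert ha, Finset.sum_insert ha, dp_add_right, ih]

lemma exists_dual_ne {n : ℕ} {V : Submodule (ZMod 2) (𝔽₂ n)} {x : 𝔽₂ n} (hx : x ∉ V) :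
    ∃ u ∈ dual V, dp u x ≠ 0 := by
  obtain ⟨f, hf, hf'⟩ := Submodule.exists_dual_map_eq_bot_of_notMem hx inferInstance
  have key : ∀ y : 𝔽₂ n, dp (fun i => f (Pi.single i 1)) y = f y := by
    intro y
    conv_rhs => rw [← Finset.univ_sum_single y]
    rw [map_sum]
    unfold dp
    apply Finset.sum_congr rfl
    intro i _
    have : (Pi.single i (y i) : 𝔽₂ n) = y i • Pi.single i (1 : ZMod 2) := by
      rw [← Pi.single_smul, smul_eq_mul, mul_one]
    rw [this, map_smul, smul_eq_mul, mul_comm]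
  refine ⟨fun i => f (Pi.single i 1), ?_, ?_⟩
  · intro v hv
    have h1 := key v
    unfold dp at h1
    rw [h1]
    have h2 : f v ∈ V.map f := Submodule.mem_map_of_mem hv
    rw [hf'] at h2
    exact (Submodule.mem_bot _).1 h2
  · rw [key]; exact hf

/-- Orthogonality of characters. -/
lemma char_sum {n : ℕ} (V : Submodule (ZMod 2) (𝔽₂ n)) (x : 𝔽₂ n) [Decidable (x ∈ V)] :
    ∑ u ∈ dualF V, sg (dp u x) = if x ∈ V then ((dualF V).card : ℤ) else 0 := by
  classical
  split_ifs with h
  · rw [Finset.card_eq_sum_ones, Nat.cast_sum]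
    apply Finset.sum_congr rfl
    intro u hu
    rw [mem_dualF, mem_dual] at hu
    have : dp u x = 0 := hu x h
    rw [this, sg_zero, Nat.cast_one]
  · obtain ⟨u0, hu0, hne⟩ := exists_dual_ne h
    have h1 : ∑ u ∈ dualF V, sg (dp u x) = ∑ u ∈ dualF V, sg (dp (u + u0) x) := by
      symm
      apply Finset.sum_bij (fun u _ => u + u0)
      · intro u hu
        rw [mem_dualF] at hu ⊢
        exact (dual V).add_mem hu hu0
      · intro a _ b _ hab
        exact add_right_cancel hab
      · intro b hb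
        rw [mem_dualF] at hb
        refine ⟨b - u0, ?_, by simp⟩
        rw [mem_dualF]
        exact (dual V).sub_mem hb hu0
      · intro a _; rfl
    have h2 : ∑ u ∈ dualF V, sg (dp (u + u0) x) = -∑ u ∈ dualF V, sg (dp u x) := by
      rw [← Finset.sum_neg_distrib]
      apply Finset.sum_congr rfl
      intro u _
      rw [dp_add_left, sg_add, sg_ne_zero hne]
      ring
    rw [h2] at h1
    omega

/-- `z(u) = n - 2 wt(u)`. -/
lemma sum_sg {n : ℕ} (u : 𝔽₂ n) : ∑ i, sg (u i) = (n : ℤ) - 2 * hammingNorm u := by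
  classical
  have h1 : ∀ i, sg (u i) = 1 - 2 * (if u i ≠ 0 then 1 else 0) := by
    intro i
    by_cases h : u i = 0
    · simp [h, sg_zero]
    · simp [h, sg_ne_zero h]
  rw [Finset.sum_congr rfl (fun i _ => h1 i), Finset.sum_sub_distrib, ← Finset.mul_sum]
  simp only [Finset.sum_const, Finset.card_univ, Fintype.card_fin, nsmul_eq_mul, mul_one]
  rw [Finset.sum_ite, Finset.sum_const_zero, add_zero, Finset.sum_const, nsmul_eq_mul, mul_one]
  rfl

/-- The sum of unit vectors along a word. -/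
def es {n k : ℕ} (t : Fin k → Fin n) : 𝔽₂ n := ∑ j, Pi.single (t j) 1

open Classical in
/-- The number of walks of length `k` from `x` into `V`. -/
noncomputable def walk {n : ℕ} (V : Submodule (ZMod 2) (𝔽₂ n)) (k : ℕ) (x : 𝔽₂ n) : ℕ :=
  (univ.filter (fun t : Fin k → Fin n => x + es t ∈ V)).card

lemma sg_dp_es {n k : ℕ} (u : 𝔽₂ n) (t : Fin k → Fin n) :
    sg (dp u (es t)) = ∏ j, sg (u (t j)) := by
  unfold es
  rw [dp_sum_right, sg_sum]
  apply Finset.prod_congr rfl
  intro j _
  rw [dp_single]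

/-- The walk identity. -/
lemma walk_identity {n : ℕ} (V : Submodule (ZMod 2) (𝔽₂ n)) (k : ℕ) (x : 𝔽₂ n) :
    ∑ u ∈ dualF V, sg (dp u x) * ((n : ℤ) - 2 * hammingNorm u) ^ k =
      (dualF V).card * walk V k x := by
  classical
  have h1 : ∀ u : 𝔽₂ n, sg (dp u x) * ((n : ℤ) - 2 * hammingNorm u) ^ k =
      ∑ t : Fin k → Fin n, sg (dp u (x + es t)) := by
    intro u
    rw [← sum_sg, Fintype.sum_pow, Finset.mul_sum]
    apply Finset.sum_congr rfl
    intro t _
    rw [dp_add_right, sg_add, sg_dp_es]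
  rw [Finset.sum_congr rfl (fun u _ => h1 u), Finset.sum_comm]
  simp_rw [char_sum]
  rw [Finset.sum_ite, Finset.sum_const_zero, add_zero, Finset.sum_const, nsmul_eq_mul]
  unfold walk
  ring

/-- Total number of walks. -/
lemma sum_walk {n : ℕ} (V : Submodule (ZMod 2) (𝔽₂ n)) (k : ℕ) :
    ∑ x, walk V k x = n ^ k * Nat.card V := by
  classical
  unfold walk
  simp_rw [Finset.card_filter]
  rw [Finset.sum_comm]
  have h1 : ∀ t : Fin k → Fin n, ∑ x : 𝔽₂ n, (if x + es t ∈ V then 1 else 0) = Nat.card V := by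
    intro t
    rw [Nat.card_eq_fintype_card, ← Finset.card_filter]
    rw [Fintype.card_subtype]
    apply Finset.card_bij (fun x _ => x + es t)
    · intro a ha
      simpa using ha
    · intro a _ b _ hab
      exact add_right_cancel hab
    · intro b hb
      refine ⟨b - es t, ?_, by simp⟩
      simpa using hb
  rw [Finset.sum_congr rfl (fun t _ => h1 t)]
  simp

lemma sum_sg_dp {n : ℕ} {u : 𝔽₂ n} (hu : u ≠ 0) : ∑ x : 𝔽₂ n, sg (dp u x) = 0 := by
  classical
  obtain ⟨i, hi⟩ : ∃ i, u i ≠ 0 := by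
    by_contra hcon
    push Not at hcon
    exact hu (funext hcon)
  have h3 : ∑ x : 𝔽₂ n, sg (dp u x) = ∑ x : 𝔽₂ n, sg (dp u (x + Pi.single i 1)) := by
    symm
    apply Finset.sum_bij (fun x _ => x + Pi.single i 1)
    · intro x _; exact Finset.mem_univ _
    · intro a _ b _ hab
      exact add_right_cancel hab
    · intro b _
      exact ⟨b - Pi.single i 1, Finset.mem_univ _, by simp⟩
    · intro a _; rfl
  have h4 : ∑ x : 𝔽₂ n, sg (dp u (x + Pi.single i 1)) = -∑ x : 𝔽₂ n, sg (dp u x) := by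
    rw [← Finset.sum_neg_distrib]
    apply Finset.sum_congr rfl
    intro x _
    rw [dp_add_right, sg_add, dp_single, sg_ne_zero hi]
    ring
  rw [h4] at h3
  omega

lemma card_dual_mul {n : ℕ} (V : Submodule (ZMod 2) (𝔽₂ n)) :
    (dualF V).card * Nat.card V = 2 ^ n := by
  classical
  have h1 : ∑ x : 𝔽₂ n, ∑ u ∈ dualF V, sg (dp u x) = ((dualF V).card : ℤ) * (Nat.card V : ℤ) := by
    simp_rw [char_sum]
    rw [Finset.sum_ite, Finset.sum_const_zero, add_zero, Finset.sum_const, nsmul_eq_mul,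
      Nat.card_eq_fintype_card, Fintype.card_subtype]
    ring
  have h2 : ∑ x : 𝔽₂ n, ∑ u ∈ dualF V, sg (dp u x) = 2 ^ n := by
    rw [Finset.sum_comm, Finset.sum_eq_single 0]
    · simp only [dp_zero_left, sg_zero, Finset.sum_const, Finset.card_univ, nsmul_eq_mul, mul_one]
      simp [Fintype.card_pi, ZMod.card]
    · intro u _ hu
      exact sum_sg_dp hu
    · intro h
      exact absurd (by rw [mem_dualF]; exact (dual V).zero_mem) h
  have h5 : (((dualF V).card * Nat.card V : ℕ) : ℤ) = ((2 ^ n : ℕ) : ℤ) := by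
    rw [Nat.cast_mul, ← h1, h2]
    norm_cast
  exact Int.ofNat.inj h5

/-- The annihilating polynomial. -/
noncomputable def annP {n : ℕ} (V : Submodule (ZMod 2) (𝔽₂ n)) : Polynomial ℤ :=
  ∏ w ∈ dualWts V, (Polynomial.X - Polynomial.C ((n : ℤ) - 2 * w))

lemma annP_monic {n : ℕ} (V : Submodule (ZMod 2) (𝔽₂ n)) : (annP V).Monic :=
  Polynomial.monic_prod_of_monic _ _ (fun w _ => Polynomial.monic_X_sub_C _)

lemma annP_natDegree {n : ℕ} (V : Submodule (ZMod 2) (𝔽₂ n)) :
    (annP V).natDegree = (dualWts V).card := by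
  unfold annP
  rw [Polynomial.natDegree_prod_of_monic _ _ (fun w _ => Polynomial.monic_X_sub_C _),
    Finset.card_eq_sum_ones]
  apply Finset.sum_congr rfl
  intro w _
  exact Polynomial.natDegree_X_sub_C _

lemma annP_eval_n {n : ℕ} (V : Submodule (ZMod 2) (𝔽₂ n)) :
    (annP V).eval (n : ℤ) = 2 ^ (dualWts V).card * ∏ w ∈ dualWts V, (w : ℤ) := by
  unfold annP
  rw [Polynomial.eval_prod, ← Finset.prod_const, ← Finset.prod_mul_distrib]
  apply Finset.prod_congr rfl
  intro w _
  simp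

lemma annP_eval_dual {n : ℕ} (V : Submodule (ZMod 2) (𝔽₂ n)) {u : 𝔽₂ n} (hu : u ∈ dual V)
    (h0 : u ≠ 0) : (annP V).eval ((n : ℤ) - 2 * hammingNorm u) = 0 := by
  unfold annP
  rw [Polynomial.eval_prod]
  apply Finset.prod_eq_zero (i := hammingNorm u)
  · unfold dualWts
    rw [Finset.mem_image]
    refine ⟨u, ?_, rfl⟩
    rw [Finset.mem_filter, mem_dualF]
    exact ⟨hu, h0⟩
  · simp

/-- The main identity: the annihilating polynomial of the walk counts is constant. -/
theorem main_identity {n : ℕ} (V : Submodule (ZMod 2) (𝔽₂ n)) (x : 𝔽₂ n) :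
    (∑ k ∈ range ((dualWts V).card + 1), (annP V).coeff k * (walk V k x : ℤ)) * (dualF V).card =
      2 ^ (dualWts V).card * ∏ w ∈ dualWts V, (w : ℤ) := by
  classical
  have h1 : ∑ u ∈ dualF V, sg (dp u x) * (annP V).eval ((n : ℤ) - 2 * hammingNorm u) =
      (annP V).eval (n : ℤ) := by
    rw [Finset.sum_eq_single 0]
    · simp [dp_zero_left, sg_zero]
    · intro u hu h0
      rw [annP_eval_dual V (mem_dualF.1 hu) h0, mul_zero]
    · intro h
      exact absurd (by rw [mem_dualF]; exact (dual V).zero_mem) h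
  have h2 : ∑ u ∈ dualF V, sg (dp u x) * (annP V).eval ((n : ℤ) - 2 * hammingNorm u) =
      (∑ k ∈ range ((dualWts V).card + 1), (annP V).coeff k * (walk V k x : ℤ)) *
        (dualF V).card := by
    rw [Finset.sum_mul]
    simp_rw [Polynomial.eval_eq_sum_range, Finset.mul_sum]
    rw [Finset.sum_comm, annP_natDegree]
    apply Finset.sum_congr rfl
    intro k _
    have h3 := walk_identity V k x
    calc ∑ u ∈ dualF V, sg (dp u x) * ((annP V).coeff k * ((n : ℤ) - 2 * hammingNorm u) ^ k)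
        = (annP V).coeff k * ∑ u ∈ dualF V, sg (dp u x) * ((n : ℤ) - 2 * hammingNorm u) ^ k := by
          rw [Finset.mul_sum]
          apply Finset.sum_congr rfl
          intro u _
          ring
      _ = _ := by rw [h3]; ring
  rw [← h2, h1, annP_eval_n]

end Pool.Agent.MP073f2d.Few
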