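import Pool.Agent.Work.MP_073f2d_co.Few1

/-!
# Codes with few dual weights: distances and walks
-/

set_option autoImplicit false

namespace Pool.Agent.MP073f2d.Few

open Finset N8b55e67f
open scoped Pointwise

variable {n : ℕ}

lemma f2_add_self (x : 𝔽₂ n) : x + x = 0 := by
  funext i
  have h : ∀ a : ZMod 2, a + a = 0 := by decide
  exact h (x i)

/-- The distance of `x` from `V` is at least `k`. -/
def Far (V : Submodule (ZMod 2) (𝔽₂ n)) (k : ℕ) (x : 𝔽₂ n) : Prop :=
  ∀ v ∈ V, k ≤ hammingNorm (x + v)

lemma es_apply_ne {k : ℕ} (t : Fin k → Fin n) (i : Fin n) (h : es t i ≠ 0) :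
    i ∈ univ.image t := by
  by_contra hcon
  apply h
  unfold es
  rw [Finset.sum_apply]
  apply Finset.sum_eq_zero
  intro j _
  have : i ≠ t j := by
    intro hij
    exact hcon (Finset.mem_image.2 ⟨j, Finset.mem_univ _, hij.symm⟩)
  simp [this]

lemma hn_es_le_image {k : ℕ} (t : Fin k → Fin n) :
    hammingNorm (es t) ≤ (univ.image t).card := by
  unfold hammingNorm
  apply Finset.card_le_card
  intro i hi
  rw [Finset.mem_filter] at hi
  exact es_apply_ne t i hi.2

lemma hn_es_le {k : ℕ} (t : Fin k → Fin n) : hammingNorm (es t) ≤ k := by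
  refine (hn_es_le_image t).trans ?_
  refine Finset.card_image_le.trans ?_
  simp

lemma inj_of_hn_es {k : ℕ} (t : Fin k → Fin n) (h : k ≤ hammingNorm (es t)) :
    Function.Injective t := by
  have h1 : (univ.image t).card = (univ : Finset (Fin k)).card := by
    apply le_antisymm Finset.card_image_le
    simpa using h.trans (hn_es_le_image t)
  have h2 := Finset.card_image_iff.1 h1
  intro a b hab
  exact h2 (by simp) (by simp) hab

lemma es_of_inj {k : ℕ} (t : Fin k → Fin n) (ht : Function.Injective t) :
    es t = ∑ i ∈ univ.image t, Pi.single i (1 : ZMod 2) := by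
  unfold es
  rw [Finset.sum_image (fun a _ b _ h => ht h)]

lemma far_add_es {V : Submodule (ZMod 2) (𝔽₂ n)} {r k : ℕ} {x : 𝔽₂ n} (hx : Far V r x)
    (t : Fin k → Fin n) (ht : x + es t ∈ V) : r ≤ hammingNorm (es t) := by
  have h := hx _ ht
  rwa [← add_assoc, f2_add_self, zero_add] at h

lemma walk_eq_zero {V : Submodule (ZMod 2) (𝔽₂ n)} {r k : ℕ} {x : 𝔽₂ n} (hx : Far V r x)
    (hk : k < r) : walk V k x = 0 := by
  classical
  unfold walk
  rw [Finset.card_eq_zero, Finset.filter_eq_empty_iff]
  intro t _ ht
  have h1 := far_add_es hx t ht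
  have h2 := hn_es_le t
  omega

lemma exists_es (y : 𝔽₂ n) : ∃ t : Fin (hammingNorm y) → Fin n, es t = y := by
  classical
  set A : Finset (Fin n) := univ.filter (fun i => y i ≠ 0) with hA
  have hcard : A.card = hammingNorm y := rfl
  refine ⟨fun j => A.orderEmbOfFin hcard j, ?_⟩
  have hinj : Function.Injective (fun j => A.orderEmbOfFin hcard j) :=
    (A.orderEmbOfFin hcard).injective
  rw [es_of_inj _ hinj]
  have himg : univ.image (fun j => A.orderEmbOfFin hcard j) = A := by
    apply Finset.coe_injective
    rw [Finset.coe_image, Finset.coe_univ, Set.image_univ]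
    exact Finset.range_orderEmbOfFin A hcard
  rw [himg]
  funext i
  rw [Finset.sum_apply]
  by_cases hi : y i = 0
  · rw [hi]
    apply Finset.sum_eq_zero
    intro j hj
    have : i ≠ j := by
      intro hij
      rw [hA, Finset.mem_filter] at hj
      exact hj.2 (hij ▸ hi)
    simp [this]
  · rw [Finset.sum_eq_single i]
    · have h2 : ∀ a : ZMod 2, a ≠ 0 → 1 = a := by decide
      rw [Pi.single_eq_same]
      exact h2 _ hi
    · intro j _ hj
      simp [hj.symm]
    · intro hcon
      exact absurd (by rw [hA, Finset.mem_filter]; exact ⟨Finset.mem_univ _, hi⟩) hcon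

lemma walk_pos {V : Submodule (ZMod 2) (𝔽₂ n)} {x v : 𝔽₂ n} (hv : v ∈ V) :
    1 ≤ walk V (hammingNorm (x + v)) x := by
  classical
  obtain ⟨t, ht⟩ := exists_es (x + v)
  unfold walk
  rw [Nat.one_le_iff_ne_zero, Finset.card_ne_zero]
  refine ⟨t, ?_⟩
  rw [Finset.mem_filter, ht, ← add_assoc, f2_add_self, zero_add]
  exact ⟨Finset.mem_univ _, hv⟩

lemma factorial_dvd_walk {V : Submodule (ZMod 2) (𝔽₂ n)} {r : ℕ} {x : 𝔽₂ n} (hx : Far V r x) :
    r.factorial ∣ walk V r x := by
  classical
  unfold walk
  set S : Finset (Fin r → Fin n) := univ.filter (fun t => x + es t ∈ V) with hS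
  have hSmem : ∀ t, t ∈ S ↔ x + es t ∈ V := by intro t; rw [hS, Finset.mem_filter]; simp
  have hinj : ∀ t ∈ S, Function.Injective t := fun t ht =>
    inj_of_hn_es t (far_add_es hx t ((hSmem t).1 ht))
  have h1 : S.card = ∑ A ∈ S.image (fun t => univ.image t),
      (S.filter (fun t => univ.image t = A)).card :=
    Finset.card_eq_sum_card_fiberwise (fun t ht => by
      simp only [Finset.coe_image]
      exact ⟨t, ht, rfl⟩)
  rw [h1]
  apply Finset.dvd_sum
  intro A hA
  rw [Finset.mem_image] at hA
  obtain ⟨t0, ht0, rfl⟩ := hA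
  have h0 := hinj t0 ht0
  have h2 : (S.filter (fun t => univ.image t = univ.image t0)).card = r.factorial := by
    have h3 : (univ : Finset (Equiv.Perm (Fin r))).card = r.factorial := by
      rw [Finset.card_univ, Fintype.card_perm, Fintype.card_fin]
    rw [← h3]
    symm
    apply Finset.card_bij (fun (σ : Equiv.Perm (Fin r)) _ => (fun a => t0 (σ a)))
    · intro σ _
      rw [Finset.mem_filter, hSmem]
      have himg : univ.image (fun a => t0 (σ a)) = univ.image t0 := by
        ext i
        simp only [Finset.mem_image, Finset.mem_univ, true_and]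
        constructor
        · rintro ⟨a, ha⟩; exact ⟨σ a, ha⟩
        · rintro ⟨a, ha⟩; exact ⟨σ.symm a, by simpa using ha⟩
      refine ⟨?_, himg⟩
      have hinj2 : Function.Injective (fun a => t0 (σ a)) := h0.comp σ.injective
      rw [es_of_inj _ hinj2, himg, ← es_of_inj t0 h0]
      exact (hSmem t0).1 ht0
    · intro σ _ τ _ h
      ext j
      have := congrFun h j
      exact congrArg Fin.val (h0 this)
    · intro t ht
      rw [Finset.mem_filter] at ht
      have htinj := hinj t ht.1
      have hex : ∀ j, ∃ a, t0 a = t j := by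
        intro j
        have hj : t j ∈ univ.image t0 := by
          rw [← ht.2]; exact Finset.mem_image_of_mem _ (Finset.mem_univ _)
        obtain ⟨a, _, ha⟩ := Finset.mem_image.1 hj
        exact ⟨a, ha⟩
      choose f hf using hex
      have hfinj : Function.Injective f := by
        intro a b hab
        apply htinj
        rw [← hf a, ← hf b, hab]
      refine ⟨Equiv.ofBijective f (Finite.injective_iff_bijective.1 hfinj), Finset.mem_univ _, ?_⟩
      funext j
      exact hf j
  rw [h2]

lemma hn_single_le (i : Fin n) : hammingNorm (Pi.single i 1 : 𝔽₂ n) ≤ 1 := by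
  classical
  unfold hammingNorm
  calc (univ.filter (fun j => (Pi.single i 1 : 𝔽₂ n) j ≠ 0)).card
      ≤ ({i} : Finset (Fin n)).card := by
        apply Finset.card_le_card
        intro j hj
        rw [Finset.mem_filter] at hj
        rw [Finset.mem_singleton]
        by_contra hji
        apply hj.2
        simp [hji]
    _ = 1 := Finset.card_singleton i

lemma hn_add_le (x y : 𝔽₂ n) : hammingNorm (x + y) ≤ hammingNorm x + hammingNorm y := by
  have h2 := hammingDist_triangle x 0 y
  rw [hammingDist_zero_right, hammingDist_comm 0 y, hammingDist_zero_right] at h2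
  have h3 : hammingDist x y = hammingNorm (x + y) := by
    rw [hammingDist_eq_hammingNorm]
    congr 1
    funext i
    have h : ∀ a b : ZMod 2, -a + b = a + b := by decide
    exact h (x i) (y i)
  rw [h3] at h2
  exact h2

/-- Going one step towards the code. -/
lemma exists_step {V : Submodule (ZMod 2) (𝔽₂ n)} {r : ℕ} (hr : 1 ≤ r) {x v : 𝔽₂ n}
    (hx : Far V r x) (hxv : hammingNorm (x + v) = r) :
    ∃ y, Far V (r - 1) y ∧ hammingNorm (y + v) = r - 1 := by
  classical
  have hne : x + v ≠ 0 := by
    intro h0
    rw [h0, hammingNorm_zero] at hxv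
    omega
  obtain ⟨i, hi⟩ : ∃ i, (x + v) i ≠ 0 := by
    by_contra hcon
    push Not at hcon
    exact hne (funext hcon)
  obtain ⟨e, he⟩ : ∃ e : 𝔽₂ n, e = Pi.single i 1 := ⟨_, rfl⟩
  have hei : e i = 1 := by rw [he, Pi.single_eq_same]
  have hej : ∀ j, j ≠ i → e j = 0 := by
    intro j hj
    rw [he]
    simp [hj]
  have hen : hammingNorm e ≤ 1 := by rw [he]; exact hn_single_le i
  have htri : ∀ w : 𝔽₂ n, hammingNorm (x + w) ≤ hammingNorm (x + e + w) + 1 := by
    intro w
    have h1 : x + w = (x + e + w) + e := by
      calc x + w = x + w + 0 := (add_zero _).symm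
        _ = x + w + (e + e) := by rw [f2_add_self e]
        _ = (x + e + w) + e := by abel
    calc hammingNorm (x + w) = hammingNorm ((x + e + w) + e) := by rw [← h1]
      _ ≤ hammingNorm (x + e + w) + hammingNorm e := hn_add_le _ _
      _ ≤ hammingNorm (x + e + w) + 1 := by omega
  refine ⟨x + e, ?_, ?_⟩
  · intro w hw
    have h1 := hx w hw
    have h2 := htri w
    omega
  · apply le_antisymm
    · -- the support loses `i`
      have h1 : hammingNorm (x + e + v) < hammingNorm (x + v) := by
        unfold hammingNorm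
        apply Finset.card_lt_card
        rw [Finset.ssubset_iff_of_subset]
        · refine ⟨i, ?_, ?_⟩
          · rw [Finset.mem_filter]; exact ⟨Finset.mem_univ _, hi⟩
          · rw [Finset.mem_filter]
            intro hcon
            apply hcon.2
            have h2 : ∀ a b : ZMod 2, a + b ≠ 0 → a + 1 + b = 0 := by decide
            have h3 : (x + e + v) i = x i + 1 + v i := by
              rw [Pi.add_apply, Pi.add_apply, hei]
            rw [h3]
            exact h2 _ _ hi
        · intro j hj
          rw [Finset.mem_filter] at hj ⊢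
          refine ⟨Finset.mem_univ _, ?_⟩
          intro hcon
          by_cases hji : j = i
          · subst hji; exact hi hcon
          · apply hj.2
            have h3 : (x + e + v) j = (x + v) j := by
              rw [Pi.add_apply, Pi.add_apply, Pi.add_apply, hej j hji, add_zero]
            rw [h3]; exact hcon
      omega
    · have h2 := htri v
      omega

/-- The number of points near the code. -/
lemma card_near_le (V : Submodule (ZMod 2) (𝔽₂ n)) (r : ℕ) (hr : 1 ≤ r)
    [DecidablePred (fun x => ¬ Far V r x)] :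
    (univ.filter (fun x => ¬ Far V r x)).card ≤ Nat.card V * Nat.card (hammingBall n (r - 1)) := by
  classical
  rw [← Nat.card_prod]
  have h0 : ∀ x : {x // x ∈ univ.filter (fun x => ¬ Far V r x)},
      ∃ v : V, hammingNorm (x.1 + v.1) ≤ r - 1 := by
    intro x
    have hx := (Finset.mem_filter.1 x.2).2
    unfold Far at hx
    push Not at hx
    obtain ⟨v, hv, hlt⟩ := hx
    exact ⟨⟨v, hv⟩, by show hammingNorm (x.1 + v) ≤ r - 1; omega⟩
  choose g hg using h0
  have h1 : Function.Injective (fun x : {x // x ∈ univ.filter (fun x => ¬ Far V r x)} =>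
      ((g x, (⟨x.1 + (g x).1, hg x⟩ : hammingBall n (r - 1))) : V × hammingBall n (r - 1))) := by
    intro x y hxy
    have h2 := congrArg Prod.fst hxy
    have h3 := congrArg (fun p => (Prod.snd p).1) hxy
    simp only at h2 h3
    rw [h2] at h3
    exact Subtype.ext (add_right_cancel h3)
  have h4 := Nat.card_le_card_of_injective _ h1
  rwa [Nat.card_eq_fintype_card, Fintype.card_coe] at h4

lemma dualWts_pos {V : Submodule (ZMod 2) (𝔽₂ n)} {w : ℕ} (hw : w ∈ dualWts V) :
    1 ≤ w ∧ w ≤ n := by
  unfold dualWts at hw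
  rw [Finset.mem_image] at hw
  obtain ⟨u, hu, rfl⟩ := hw
  rw [Finset.mem_filter] at hu
  refine ⟨hammingNorm_pos_iff.2 hu.2, ?_⟩
  have := hammingNorm_le_card_fintype (x := u)
  simpa using this

lemma dualF_card_pos (V : Submodule (ZMod 2) (𝔽₂ n)) : 0 < (dualF V).card := by
  rw [Finset.card_pos]
  exact ⟨0, by rw [mem_dualF]; exact (dual V).zero_mem⟩

/-- Delsarte: the covering radius is at most the number of dual weights. -/
theorem delsarte (V : Submodule (ZMod 2) (𝔽₂ n)) (x : 𝔽₂ n) :
    ∃ v ∈ V, hammingNorm (x + v) ≤ (dualWts V).card := by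
  by_contra hcon
  push Not at hcon
  have hfar : Far V ((dualWts V).card + 1) x := fun v hv => hcon v hv
  have h1 := main_identity V x
  have h2 : ∑ k ∈ range ((dualWts V).card + 1), (annP V).coeff k * (walk V k x : ℤ) = 0 := by
    apply Finset.sum_eq_zero
    intro k hk
    rw [Finset.mem_range] at hk
    rw [walk_eq_zero hfar hk]
    simp
  rw [h2, zero_mul] at h1
  have h3 : (0 : ℤ) < 2 ^ (dualWts V).card * ∏ w ∈ dualWts V, (w : ℤ) := by
    apply mul_pos (by positivity)
    apply Finset.prod_pos
    intro w hw
    exact_mod_cast (dualWts_pos hw).1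
  omega

theorem covering_of_few {V : Submodule (ZMod 2) (𝔽₂ n)} {r : ℕ} (h : (dualWts V).card ≤ r) :
    IsCoveringSubspace n r V := by
  unfold IsCoveringSubspace
  rw [Set.eq_univ_iff_forall]
  intro x
  obtain ⟨v, hv, hx⟩ := delsarte V x
  rw [Set.mem_add]
  refine ⟨v, hv, x + v, hx.trans h, ?_⟩
  rw [add_comm, add_assoc, f2_add_self, add_zero]

/-- The core facts. -/
theorem core {V : Submodule (ZMod 2) (𝔽₂ n)} {r : ℕ} (hr : 1 ≤ r) (hs : (dualWts V).card = r)
    (hfar : ∃ x, Far V r x) :
    ∃ T : ℕ, 0 < T ∧ 2 ^ r * ∏ w ∈ dualWts V, w = T * (dualF V).card ∧ r.factorial ∣ T ∧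
      -(T : ℤ) ≤ ∑ w ∈ dualWts V, ((n : ℤ) - 2 * w) ∧
      T * 2 ^ n ≤ n ^ r * Nat.card V + T * (Nat.card V * Nat.card (hammingBall n (r - 1))) := by
  classical
  have hDpos : (0 : ℤ) < (dualF V).card := by exact_mod_cast dualF_card_pos V
  have hlead : (annP V).coeff r = 1 := by
    have h := annP_monic V
    rw [Polynomial.Monic, Polynomial.leadingCoeff, annP_natDegree, hs] at h
    exact h
  have hfarval : ∀ x, Far V r x → (walk V r x : ℤ) * (dualF V).card =
      2 ^ r * ∏ w ∈ dualWts V, (w : ℤ) := by
    intro x hx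
    have h1 := main_identity V x
    rw [hs, Finset.sum_range_succ, hlead, one_mul] at h1
    have h2 : ∑ k ∈ range r, (annP V).coeff k * (walk V k x : ℤ) = 0 := by
      apply Finset.sum_eq_zero
      intro k hk
      rw [walk_eq_zero hx (Finset.mem_range.1 hk)]
      simp
    rw [h2, zero_add] at h1
    exact h1
  obtain ⟨x0, hx0⟩ := hfar
  have hT := hfarval x0 hx0
  have hTpos : 0 < walk V r x0 := by
    rcases Nat.eq_zero_or_pos (walk V r x0) with h0 | h0
    · rw [h0] at hT
      have h3 : (0 : ℤ) < 2 ^ r * ∏ w ∈ dualWts V, (w : ℤ) := by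
        apply mul_pos (by positivity)
        apply Finset.prod_pos
        intro w hw
        exact_mod_cast (dualWts_pos hw).1
      rw [← hT] at h3
      simp at h3
    · exact h0
  refine ⟨walk V r x0, hTpos, ?_, factorial_dvd_walk hx0, ?_, ?_⟩
  · have : ((2 ^ r * ∏ w ∈ dualWts V, w : ℕ) : ℤ) = ((walk V r x0 * (dualF V).card : ℕ) : ℤ) := by
      push_cast
      exact hT.symm
    exact_mod_cast this
  · -- distance `r - 1`
    obtain ⟨v, hv, hle⟩ := delsarte V x0
    rw [hs] at hle
    have heq : hammingNorm (x0 + v) = r := le_antisymm hle (hx0 v hv)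
    obtain ⟨y, hy, hyv⟩ := exists_step hr hx0 heq
    have h1 := main_identity V y
    rw [hs, Finset.sum_range_succ, hlead, one_mul] at h1
    have h2 : ∑ k ∈ range r, (annP V).coeff k * (walk V k y : ℤ) =
        (annP V).coeff (r - 1) * (walk V (r - 1) y : ℤ) := by
      rw [Finset.sum_eq_single (r - 1)]
      · intro k hk hne
        rw [Finset.mem_range] at hk
        rw [walk_eq_zero hy (by omega)]
        simp
      · intro h
        rw [Finset.mem_range] at h
        omega
    have h3 : (annP V).coeff (r - 1) = -∑ w ∈ dualWts V, ((n : ℤ) - 2 * w) := by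
      have h4 := Polynomial.prod_X_sub_C_coeff_card_pred (dualWts V)
        (fun w : ℕ => (n : ℤ) - 2 * w) (by omega)
      rw [hs] at h4
      exact h4
    rw [h2, h3, ← hT] at h1
    have h5 := mul_right_cancel₀ hDpos.ne' h1
    have h6 : 1 ≤ walk V (r - 1) y := by
      rw [← hyv]
      exact walk_pos hv
    have h7 : (0 : ℤ) ≤ (walk V r y : ℤ) := by positivity
    have h8 : (1 : ℤ) ≤ (walk V (r - 1) y : ℤ) := by exact_mod_cast h6
    have h9 : (0 : ℤ) < (walk V r x0 : ℤ) := by exact_mod_cast hTpos
    by_contra hcon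
    push Not at hcon
    nlinarith
  · -- counting
    have hsum := sum_walk V r
    have hfilt : (univ.filter (fun x => Far V r x)).card * walk V r x0 ≤ n ^ r * Nat.card V := by
      rw [← hsum, ← smul_eq_mul, ← Finset.sum_const]
      calc ∑ x ∈ univ.filter (fun x => Far V r x), walk V r x0
          = ∑ x ∈ univ.filter (fun x => Far V r x), walk V r x := by
            apply Finset.sum_congr rfl
            intro x hx
            have h1 := hfarval x (Finset.mem_filter.1 hx).2
            rw [← hT] at h1
            have h2 := mul_right_cancel₀ hDpos.ne' h1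
            exact_mod_cast h2.symm
        _ ≤ ∑ x, walk V r x :=
            Finset.sum_le_sum_of_subset (Finset.filter_subset _ _)
    have hcard : (univ.filter (fun x => Far V r x)).card +
        (univ.filter (fun x => ¬ Far V r x)).card = 2 ^ n := by
      rw [Finset.card_filter_add_card_filter_not]
      simp [Fintype.card_pi, ZMod.card]
    have hnear := card_near_le V r hr
    calc walk V r x0 * 2 ^ n
        = (univ.filter (fun x => Far V r x)).card * walk V r x0 +
          walk V r x0 * (univ.filter (fun x => ¬ Far V r x)).card := by rw [← hcard]; ring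
      _ ≤ n ^ r * Nat.card V +
          walk V r x0 * (Nat.card V * Nat.card (hammingBall n (r - 1))) := by gcongr

end Pool.Agent.MP073f2d.Few
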