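import Mathlib

/-!
# Codes with few dual weights: spacing, 2-adic product bound, a logarithmic inequality
-/

set_option autoImplicit false

namespace Pool.Agent.MP073f2d.Few

open Finset

/-- Spacing: distinct multiples of `m`. -/
lemma spacing (m : ℕ) (hm : 1 ≤ m) (c : ℝ) : ∀ (k : ℕ) (W : Finset ℕ), W.card = k →
    (∀ w ∈ W, m ∣ w) →
    (m : ℝ) ^ 2 * ((k : ℝ) ^ 3 - k) / 12 ≤ ∑ w ∈ W, ((w : ℝ) - c) ^ 2 := by
  intro k
  induction k using Nat.strong_induction_on with
  | _ k ih =>
    intro W hW hdvd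
    rcases Nat.lt_or_ge k 2 with hk | hk
    · have h0 : ((k : ℝ) ^ 3 - k) = 0 := by
        interval_cases k <;> norm_num
      rw [h0]
      simp only [mul_zero, zero_div]
      exact Finset.sum_nonneg (fun w _ => sq_nonneg _)
    · have hne : W.Nonempty := by
        rw [← Finset.card_pos]; omega
      set a := W.min' hne with ha
      set b := W.max' hne with hb
      have haW : a ∈ W := Finset.min'_mem _ _
      have hbW : b ∈ W := Finset.max'_mem _ _
      have hab : a < b := Finset.min'_lt_max'_of_card _ (by omega)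
      have hbe : b ∈ W.erase a := Finset.mem_erase.2 ⟨hab.ne', hbW⟩
      set W' := (W.erase a).erase b with hW'
      have hcard : W'.card = k - 2 := by
        rw [hW', Finset.card_erase_of_mem hbe, Finset.card_erase_of_mem haW, hW]
        omega
      have hih := ih (k - 2) (by omega) W' hcard
        (fun w hw => hdvd w (Finset.mem_of_mem_erase (Finset.mem_of_mem_erase hw)))
      have hsum : ∑ w ∈ W, ((w : ℝ) - c) ^ 2 =
          ((a : ℝ) - c) ^ 2 + (((b : ℝ) - c) ^ 2 + ∑ w ∈ W', ((w : ℝ) - c) ^ 2) := by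
        rw [← Finset.add_sum_erase W _ haW, ← Finset.add_sum_erase (W.erase a) _ hbe]
      -- gap
      have hgap : m * (k - 1) ≤ b - a := by
        have h1 : W.card ≤ (Finset.Icc (a / m) (b / m)).card := by
          apply Finset.card_le_card_of_injOn (fun w => w / m)
          · intro w hw
            simp only [Finset.coe_Icc, Set.mem_Icc]
            exact ⟨Nat.div_le_div_right (Finset.min'_le _ _ hw),
              Nat.div_le_div_right (Finset.le_max' _ _ hw)⟩
          · intro x hx y hy hxy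
            have h2 := Nat.div_mul_cancel (hdvd x hx)
            have h3 := Nat.div_mul_cancel (hdvd y hy)
            simp only at hxy
            rw [← h2, ← h3, hxy]
        rw [Nat.card_Icc, hW] at h1
        have h4 := Nat.div_mul_cancel (hdvd a haW)
        have h5 := Nat.div_mul_cancel (hdvd b hbW)
        have h6 : k - 1 ≤ b / m - a / m := by omega
        calc m * (k - 1) ≤ m * (b / m - a / m) := Nat.mul_le_mul_left _ h6
          _ = b - a := by rw [Nat.mul_sub, mul_comm m (b / m), mul_comm m (a / m), h4, h5]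
      have hgap' : (m : ℝ) * ((k : ℝ) - 1) ≤ (b : ℝ) - a := by
        have h1 : ((m * (k - 1) : ℕ) : ℝ) ≤ ((b - a : ℕ) : ℝ) := by exact_mod_cast hgap
        rw [Nat.cast_mul, Nat.cast_sub (by omega), Nat.cast_sub hab.le] at h1
        simpa using h1
      have hk1 : (0 : ℝ) ≤ (m : ℝ) * ((k : ℝ) - 1) := by
        have : (2 : ℝ) ≤ k := by exact_mod_cast hk
        have hm0 : (0 : ℝ) ≤ m := by positivity
        nlinarith
      have htwo : ((m : ℝ) * ((k : ℝ) - 1)) ^ 2 / 2 ≤ ((a : ℝ) - c) ^ 2 + ((b : ℝ) - c) ^ 2 := by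
        have h1 : ((m : ℝ) * ((k : ℝ) - 1)) ^ 2 ≤ ((b : ℝ) - a) ^ 2 :=
          pow_le_pow_left₀ hk1 hgap' 2
        nlinarith [sq_nonneg ((a : ℝ) + b - 2 * c)]
      have hcast : ((k - 2 : ℕ) : ℝ) = (k : ℝ) - 2 := by
        rw [Nat.cast_sub hk]; norm_num
      rw [hcast] at hih
      rw [hsum]
      nlinarith

/-- The 2-adic product bound. -/
lemma two_adic (n : ℕ) (Y : ℝ) : ∀ (k : ℕ) (W : Finset ℕ), W.card = k + 1 →
    (∀ w ∈ W, 1 ≤ w ∧ w ≤ n) →
    ∑ w ∈ W, ((w : ℝ) - n / 2) ^ 2 ≤ (n : ℝ) ^ 2 / 4 * Y →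
    (4 : ℝ) ^ (∑ w ∈ W, padicValNat 2 w) *
      (k.factorial * (k + 1).factorial * (k + 2).factorial : ℝ) ≤
      2 * (n : ℝ) ^ (2 * (k + 1)) * (3 * Y) ^ k := by
  intro k
  induction k with
  | zero =>
    intro W hW hr hY
    obtain ⟨w, rfl⟩ := Finset.card_eq_one.1 hW
    have hw := hr w (Finset.mem_singleton_self w)
    rw [Finset.sum_singleton]
    have h1 : 2 ^ padicValNat 2 w ≤ w := Nat.le_of_dvd (by omega) pow_padicValNat_dvd
    have h2 : (2 : ℝ) ^ padicValNat 2 w ≤ n := by
      have : 2 ^ padicValNat 2 w ≤ n := h1.trans hw.2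
      exact_mod_cast this
    have h3 : (4 : ℝ) ^ padicValNat 2 w = ((2 : ℝ) ^ padicValNat 2 w) ^ 2 := by
      rw [← pow_mul, mul_comm, pow_mul]; norm_num
    rw [h3]
    have h4 : ((2 : ℝ) ^ padicValNat 2 w) ^ 2 ≤ (n : ℝ) ^ 2 :=
      pow_le_pow_left₀ (by positivity) h2 2
    norm_num [Nat.factorial]
    linarith
  | succ k ih =>
    intro W hW hr hY
    have hne : W.Nonempty := by rw [← Finset.card_pos]; omega
    obtain ⟨w0, hw0, hmin⟩ := Finset.exists_min_image W (fun w => padicValNat 2 w) hne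
    set t0 := padicValNat 2 w0 with ht0
    have hW' : (W.erase w0).card = k + 1 := by
      rw [Finset.card_erase_of_mem hw0, hW]; omega
    have hY' : ∑ w ∈ W.erase w0, ((w : ℝ) - n / 2) ^ 2 ≤ (n : ℝ) ^ 2 / 4 * Y := by
      refine le_trans ?_ hY
      exact Finset.sum_le_sum_of_subset_of_nonneg (Finset.erase_subset _ _)
        (fun w _ _ => sq_nonneg _)
    have hih := ih (W.erase w0) hW' (fun w hw => hr w (Finset.mem_of_mem_erase hw)) hY'
    have hdvd : ∀ w ∈ W, 2 ^ t0 ∣ w := by
      intro w hw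
      have h1 : t0 ≤ padicValNat 2 w := hmin w hw
      exact (pow_dvd_pow 2 h1).trans pow_padicValNat_dvd
    have hsp := spacing (2 ^ t0) (Nat.one_le_two_pow) ((n : ℝ) / 2) (k + 2) W (by omega) hdvd
    have hsum : ∑ w ∈ W, padicValNat 2 w = t0 + ∑ w ∈ W.erase w0, padicValNat 2 w := by
      rw [← Finset.add_sum_erase W _ hw0]
    have h4t : (((2 ^ t0 : ℕ) : ℝ)) ^ 2 = (4 : ℝ) ^ t0 := by
      push_cast
      rw [← pow_mul, mul_comm, pow_mul]; norm_num
    rw [h4t] at hsp
    have hkey : (4 : ℝ) ^ t0 * (((k : ℝ) + 1) * ((k : ℝ) + 2) * ((k : ℝ) + 3)) ≤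
        (n : ℝ) ^ 2 * (3 * Y) := by
      have h1 := hsp.trans hY
      have h2 : (((k + 2 : ℕ) : ℝ)) ^ 3 - ((k + 2 : ℕ) : ℝ) =
          ((k : ℝ) + 1) * ((k : ℝ) + 2) * ((k : ℝ) + 3) := by
        push_cast; ring
      rw [h2] at h1
      linarith
    have hfac : (((k + 1).factorial * (k + 2).factorial * (k + 3).factorial : ℕ) : ℝ) =
        (k.factorial * (k + 1).factorial * (k + 2).factorial : ℝ) *
          (((k : ℝ) + 1) * ((k : ℝ) + 2) * ((k : ℝ) + 3)) := by
      rw [show (k + 3).factorial = (k + 3) * (k + 2).factorial from Nat.factorial_succ (k + 2)]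
      push_cast [Nat.factorial_succ]
      ring
    have hpos : (0 : ℝ) ≤ (4 : ℝ) ^ t0 * (((k : ℝ) + 1) * ((k : ℝ) + 2) * ((k : ℝ) + 3)) := by
      positivity
    have hpos2 : (0 : ℝ) ≤ (4 : ℝ) ^ (∑ w ∈ W.erase w0, padicValNat 2 w) *
      (k.factorial * (k + 1).factorial * (k + 2).factorial : ℝ) := by positivity
    rw [hsum, pow_add]
    calc (4 : ℝ) ^ t0 * 4 ^ (∑ w ∈ W.erase w0, padicValNat 2 w) *
          ((k + 1).factorial * (k + 1 + 1).factorial * (k + 1 + 2).factorial : ℝ)
        = ((4 : ℝ) ^ (∑ w ∈ W.erase w0, padicValNat 2 w) *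
            (k.factorial * (k + 1).factorial * (k + 2).factorial : ℝ)) *
          ((4 : ℝ) ^ t0 * (((k : ℝ) + 1) * ((k : ℝ) + 2) * ((k : ℝ) + 3))) := by
          have h5 : ((k + 1).factorial * (k + 1 + 1).factorial * (k + 1 + 2).factorial : ℝ) =
            (((k + 1).factorial * (k + 2).factorial * (k + 3).factorial : ℕ) : ℝ) := by
            push_cast; rfl
          rw [h5, hfac]; ring
      _ ≤ (2 * (n : ℝ) ^ (2 * (k + 1)) * (3 * Y) ^ k) * ((n : ℝ) ^ 2 * (3 * Y)) :=
          mul_le_mul hih hkey hpos (hpos2.trans hih)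
      _ = 2 * (n : ℝ) ^ (2 * (k + 1 + 1)) * (3 * Y) ^ (k + 1) := by ring

/-- The logarithmic inequality. -/
lemma log_ineq (y : ℝ) (h0 : 0 < y) (h2 : y ≤ 2) :
    (1 - y) + 3 / 10 * (1 - y) ^ 2 ≤ -Real.log y := by
  set h : ℝ → ℝ := fun y => y - 1 - 3 / 10 * (y - 1) ^ 2 - Real.log y with hh
  have hder : ∀ y : ℝ, 0 < y → HasDerivAt h (1 - 3 / 5 * (y - 1) - y⁻¹) y := by
    intro y hy
    have h1 : HasDerivAt (fun y : ℝ => y - 1) 1 y := (hasDerivAt_id y).sub_const 1
    have h2 : HasDerivAt (fun y : ℝ => 3 / 10 * (y - 1) ^ 2) (3 / 10 * (2 * (y - 1) ^ 1 * 1)) y :=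
      (h1.pow 2).const_mul (3 / 10)
    have h3 : HasDerivAt h (1 - 3 / 10 * (2 * (y - 1) ^ 1 * 1) - y⁻¹) y :=
      (h1.sub h2).sub (Real.hasDerivAt_log hy.ne')
    have h4 : 1 - 3 / 5 * (y - 1) - y⁻¹ = 1 - 3 / 10 * (2 * (y - 1) ^ 1 * 1) - y⁻¹ := by ring
    rw [h4]
    exact h3
  have hcont : ContinuousOn h (Set.Ioi 0) := fun y hy =>
    (hder y hy).continuousAt.continuousWithinAt
  have hkey : 0 ≤ h y := by
    rcases le_or_gt y 1 with hy1 | hy1
    · -- antitone on (0, 1]
      have hanti : AntitoneOn h (Set.Ioc 0 1) := by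
        apply antitoneOn_of_deriv_nonpos (convex_Ioc 0 1)
          (hcont.mono (fun x hx => hx.1))
        · intro x hx
          rw [interior_Ioc] at hx
          exact (hder x hx.1).differentiableAt.differentiableWithinAt
        · intro x hx
          rw [interior_Ioc] at hx
          rw [(hder x hx.1).deriv]
          have hx0 := hx.1
          have h3 : x⁻¹ * x = 1 := inv_mul_cancel₀ hx0.ne'
          have h4 : (1 - 3 / 5 * (x - 1) - x⁻¹) * x ≤ 0 := by nlinarith [hx.2]
          by_contra hcon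
          push Not at hcon
          have := mul_pos hcon hx0
          linarith
      have h1 := hanti ⟨h0, hy1⟩ ⟨one_pos, le_refl 1⟩ hy1
      have h3 : h 1 = 0 := by simp [hh]
      rw [h3] at h1
      exact h1
    · rcases le_or_gt y (5 / 3) with hy2 | hy2
      · have hmono : MonotoneOn h (Set.Icc 1 (5 / 3)) := by
          apply monotoneOn_of_deriv_nonneg (convex_Icc 1 (5 / 3))
            (hcont.mono (fun x hx => lt_of_lt_of_le one_pos hx.1))
          · intro x hx
            rw [interior_Icc] at hx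
            exact (hder x (one_pos.trans hx.1)).differentiableAt.differentiableWithinAt
          · intro x hx
            rw [interior_Icc] at hx
            have hx0 : 0 < x := one_pos.trans hx.1
            rw [(hder x hx0).deriv]
            have h3 : x⁻¹ * x = 1 := inv_mul_cancel₀ hx0.ne'
            have h4 : 0 ≤ (1 - 3 / 5 * (x - 1) - x⁻¹) * x := by nlinarith [hx.1, hx.2]
            by_contra hcon
            push Not at hcon
            have := mul_neg_of_neg_of_pos hcon hx0
            linarith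
        have h1 := hmono ⟨le_refl 1, by norm_num⟩ ⟨hy1.le, hy2⟩ hy1.le
        have h3 : h 1 = 0 := by simp [hh]
        rw [h3] at h1
        exact h1
      · have hanti : AntitoneOn h (Set.Icc (5 / 3) 2) := by
          apply antitoneOn_of_deriv_nonpos (convex_Icc (5 / 3) 2)
            (hcont.mono (fun x hx => lt_of_lt_of_le (by norm_num) hx.1))
          · intro x hx
            rw [interior_Icc] at hx
            exact (hder x (lt_trans (by norm_num) hx.1)).differentiableAt.differentiableWithinAt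
          · intro x hx
            rw [interior_Icc] at hx
            have hx0 : 0 < x := lt_trans (by norm_num) hx.1
            rw [(hder x hx0).deriv]
            have h3 : x⁻¹ * x = 1 := inv_mul_cancel₀ hx0.ne'
            have h4 : (1 - 3 / 5 * (x - 1) - x⁻¹) * x ≤ 0 := by nlinarith [hx.1, hx.2]
            by_contra hcon
            push Not at hcon
            have := mul_pos hcon hx0
            linarith
        have h1 := hanti ⟨hy2.le, h2⟩ ⟨by norm_num, le_refl 2⟩ h2
        have h3 : 0 ≤ h 2 := by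
          simp only [hh]
          have := Real.log_two_lt_d9
          norm_num
          linarith
        linarith
  simp only [hh] at hkey
  nlinarith

end Pool.Agent.MP073f2d.Few
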