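import Pool.Agent.Work.MP_073f2d_co.Few2
import Pool.Agent.Work.MP_073f2d_co.Few3

/-!
# Codes with few dual weights: the inequality for a single code
-/

set_option autoImplicit false

namespace Pool.Agent.MP073f2d.Few

open Finset N8b55e67f

lemma two_pow_digits_sum (r : ℕ) : 2 ^ (Nat.digits 2 r).sum ≤ r + 1 := by
  induction r using Nat.strong_induction_on with
  | _ r ih =>
    rcases Nat.eq_zero_or_pos r with h0 | h0
    · subst h0; simp
    · rw [Nat.digits_def' (by norm_num) h0, List.sum_cons, pow_add]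
      have h1 := ih (r / 2) (Nat.div_lt_self h0 (by norm_num))
      rcases Nat.mod_two_eq_zero_or_one r with h2 | h2
      · rw [h2]; omega
      · rw [h2]; omega

/-- `2^(r - v₂(r!))`. -/
def qq (r : ℕ) : ℕ := 2 ^ (r - padicValNat 2 r.factorial)

lemma padic_factorial (r : ℕ) : padicValNat 2 r.factorial = r - (Nat.digits 2 r).sum := by
  have h := sub_one_mul_padicValNat_factorial (p := 2) r
  simpa using h

lemma qq_le (r : ℕ) : qq r ≤ r + 1 := by
  unfold qq
  rw [padic_factorial]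
  have h1 : (Nat.digits 2 r).sum ≤ r := Nat.digit_sum_le 2 r
  have h2 : r - (r - (Nat.digits 2 r).sum) = (Nat.digits 2 r).sum := by omega
  rw [h2]
  exact two_pow_digits_sum r

lemma qq_two : qq 2 = 2 := by
  unfold qq
  rw [padic_factorial]
  norm_num

lemma padic_le (r : ℕ) : padicValNat 2 r.factorial ≤ r := by
  rw [padic_factorial]; omega

lemma fact_ineq (r : ℕ) (hr : 1 ≤ r) :
    r.factorial * r.factorial ≤ (r - 1).factorial * (r + 1).factorial := by
  obtain ⟨k, rfl⟩ : ∃ k, r = k + 1 := ⟨r - 1, by omega⟩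
  rw [Nat.add_sub_cancel, Nat.factorial_succ (k + 1)]
  calc (k + 1).factorial * (k + 1).factorial = (k + 1) * k.factorial * (k + 1).factorial := by
        rw [Nat.factorial_succ k]
    _ = k.factorial * ((k + 1) * (k + 1).factorial) := by ring
    _ ≤ k.factorial * ((k + 1 + 1) * (k + 1).factorial) := by
        apply Nat.mul_le_mul_left
        apply Nat.mul_le_mul_right
        omega

lemma aux_four (L : ℕ) (q : ℝ) : (q * 2 ^ L) ^ 2 = q ^ 2 * 4 ^ L := by
  rw [mul_pow, ← pow_mul, mul_comm L 2, pow_mul]; norm_num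

lemma aux_pow (x : ℝ) (r : ℕ) : x ^ (2 * r) = (x ^ r) ^ 2 := by
  rw [mul_comm, pow_mul]

lemma aux_combine (D f g h q P N μ Z : ℝ) (hD : 0 < D) (hf : 0 < f) (hg : f * f ≤ g * h)
    (hv : D ^ 2 ≤ q ^ 2 * P) (hta : P * (g * f * h) ≤ 2 * N * Z)
    (hN : N = μ ^ 2 * f ^ 2 * D ^ 2) (hgh : 0 ≤ g * h) : f ≤ 2 * q ^ 2 * μ ^ 2 * Z := by
  have hpos : 0 < D ^ 2 * f ^ 2 := by positivity
  have hstep : D ^ 2 * f ^ 2 * f ≤ D ^ 2 * f ^ 2 * (2 * q ^ 2 * μ ^ 2 * Z) := by
    calc D ^ 2 * f ^ 2 * f = D ^ 2 * (f * (f * f)) := by ring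
      _ ≤ D ^ 2 * (f * (g * h)) :=
          mul_le_mul_of_nonneg_left (mul_le_mul_of_nonneg_left hg hf.le) (by positivity)
      _ ≤ (q ^ 2 * P) * (f * (g * h)) :=
          mul_le_mul_of_nonneg_right hv (mul_nonneg hf.le hgh)
      _ = q ^ 2 * (P * (g * f * h)) := by ring
      _ ≤ q ^ 2 * (2 * N * Z) := mul_le_mul_of_nonneg_left hta (sq_nonneg q)
      _ = _ := by rw [hN]; ring
  exact le_of_mul_le_mul_left hstep hpos

/-- The inequality for a single code with `r` dual weights and covering radius `r`. -/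
theorem finite_ineq {n r : ℕ} (V : Submodule (ZMod 2) (𝔽₂ n)) (hr : 1 ≤ r) (hn : 1 ≤ n)
    (hs : (dualWts V).card = r) (hfar : ∃ x, Far V r x)
    (hhalf : 2 * Nat.card (hammingBall n (r - 1)) ≤ (dualF V).card) (μ : ℝ)
    (hμ : (n : ℝ) ^ r = μ * r.factorial * (dualF V).card) :
    (r.factorial : ℝ) ≤ 2 * (qq r : ℝ) ^ 2 * μ ^ 2 *
      (10 * (Real.log μ + 2 * r.factorial * μ / n)) ^ (r - 1) ∧
    0 ≤ Real.log μ + 2 * r.factorial * μ / n := by
  classical
  obtain ⟨T, hT0, hprod, hdvd, hsum, hcount⟩ := core hr hs hfar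
  set D := (dualF V).card with hD
  have hDpos : 0 < D := dualF_card_pos V
  have hDV : D * Nat.card V = 2 ^ n := card_dual_mul V
  have hVpos : 0 < Nat.card V := Nat.card_pos
  have hnR : (0 : ℝ) < n := by exact_mod_cast hn
  have hDR : (0 : ℝ) < D := by exact_mod_cast hDpos
  have hTR : (0 : ℝ) < T := by exact_mod_cast hT0
  have hfR : (0 : ℝ) < r.factorial := by exact_mod_cast r.factorial_pos
  -- counting
  have hTD : T * D ≤ 2 * n ^ r := by
    have h1 : (T * D) * Nat.card V ≤ (n ^ r + T * Nat.card (hammingBall n (r - 1))) * Nat.card V := by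
      calc (T * D) * Nat.card V = T * 2 ^ n := by rw [← hDV]; ring
        _ ≤ _ := hcount
        _ = _ := by ring
    have h2 := Nat.le_of_mul_le_mul_right h1 hVpos
    have h3 : T * (2 * Nat.card (hammingBall n (r - 1))) ≤ T * D := Nat.mul_le_mul_left _ hhalf
    nlinarith
  have hμpos : 0 < μ := by
    by_contra hcon
    push Not at hcon
    have h1 : (0 : ℝ) < (n : ℝ) ^ r := by positivity
    rw [hμ] at h1
    have h2 : μ * r.factorial * D ≤ 0 := by
      have := mul_nonpos_of_nonpos_of_nonneg hcon (mul_pos hfR hDR).le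
      linarith [this, mul_assoc μ (r.factorial : ℝ) (D : ℝ)]
    linarith
  have hTn : (T : ℝ) ≤ 2 * r.factorial * μ := by
    have h1 : (T : ℝ) * D ≤ 2 * (n : ℝ) ^ r := by exact_mod_cast hTD
    rw [hμ] at h1
    have h2 : (T : ℝ) * D ≤ (2 * r.factorial * μ) * D := by linarith
    exact le_of_mul_le_mul_right h2 hDR
  -- the scaled weights
  set W := dualWts V with hW
  have hWpos : ∀ w ∈ W, (0 : ℝ) < w ∧ (w : ℝ) ≤ n := by
    intro w hw
    have h := dualWts_pos hw
    exact ⟨by exact_mod_cast h.1, by exact_mod_cast h.2⟩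
  set Y : ℝ := ∑ w ∈ W, (1 - 2 * (w : ℝ) / n) ^ 2 with hY
  have hlogsum : ∑ w ∈ W, -Real.log (2 * (w : ℝ) / n) = -Real.log (∏ w ∈ W, (2 * (w : ℝ) / n)) := by
    rw [Finset.sum_neg_distrib, Real.log_prod]
    intro w hw
    have := (hWpos w hw).1
    positivity
  have hprodR : ∏ w ∈ W, (2 * (w : ℝ) / n) = T * D / (n : ℝ) ^ r := by
    have h1 : (2 : ℝ) ^ r * ∏ w ∈ W, (w : ℝ) = T * D := by
      have h := congrArg (Nat.cast : ℕ → ℝ) hprod
      push_cast at h
      exact h
    rw [Finset.prod_div_distrib, Finset.prod_const, hs, Finset.prod_mul_distrib, Finset.prod_const,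
      hs, h1]
  have hTfac : (r.factorial : ℝ) ≤ T := by exact_mod_cast Nat.le_of_dvd hT0 hdvd
  have hlogle : -Real.log (∏ w ∈ W, (2 * (w : ℝ) / n)) ≤ Real.log μ := by
    rw [hprodR, ← Real.log_inv]
    apply Real.log_le_log (by positivity)
    rw [inv_div, hμ, div_le_iff₀ (by positivity)]
    have : μ * r.factorial * D ≤ μ * T * D := by gcongr
    linarith
  have hsumR : -(2 * r.factorial * μ / n) ≤ ∑ w ∈ W, (1 - 2 * (w : ℝ) / n) := by
    have h1 : -(T : ℝ) ≤ ∑ w ∈ W, ((n : ℝ) - 2 * w) := by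
      have : ((-(T : ℤ) : ℤ) : ℝ) ≤ ((∑ w ∈ W, ((n : ℤ) - 2 * w) : ℤ) : ℝ) := by
        exact_mod_cast hsum
      push_cast at this
      exact this
    have h2 : ∑ w ∈ W, (1 - 2 * (w : ℝ) / n) = (∑ w ∈ W, ((n : ℝ) - 2 * w)) / n := by
      rw [Finset.sum_div]
      apply Finset.sum_congr rfl
      intro w _
      field_simp
    rw [h2, ← neg_div, div_le_div_iff_of_pos_right hnR]
    linarith
  have hlog : ∑ w ∈ W, ((1 - 2 * (w : ℝ) / n) + 3 / 10 * (1 - 2 * (w : ℝ) / n) ^ 2) ≤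
      ∑ w ∈ W, -Real.log (2 * (w : ℝ) / n) := by
    apply Finset.sum_le_sum
    intro w hw
    have h := hWpos w hw
    apply log_ineq
    · have := h.1
      positivity
    · rw [div_le_iff₀ hnR]
      linarith [h.2]
  rw [Finset.sum_add_distrib, ← Finset.mul_sum, hlogsum] at hlog
  have hYle : 3 * Y ≤ 10 * (Real.log μ + 2 * r.factorial * μ / n) := by linarith
  have hY0 : 0 ≤ Y := Finset.sum_nonneg (fun w _ => sq_nonneg _)
  -- 2-adic part
  have hYeq : ∑ w ∈ W, ((w : ℝ) - n / 2) ^ 2 ≤ (n : ℝ) ^ 2 / 4 * Y := by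
    rw [hY, Finset.mul_sum]
    apply le_of_eq
    apply Finset.sum_congr rfl
    intro w _
    field_simp
    ring
  have hWcard : W.card = (r - 1) + 1 := by omega
  have hta := two_adic n Y (r - 1) W hWcard (fun w hw => dualWts_pos hw) hYeq
  have hr1 : r - 1 + 1 = r := by omega
  have hr2 : r - 1 + 2 = r + 1 := by omega
  rw [hr1, hr2] at hta
  set L := ∑ w ∈ W, padicValNat 2 w with hL
  have hval : D ≤ qq r * 2 ^ L := by
    obtain ⟨c, -, hc⟩ := (Nat.dvd_prime_pow Nat.prime_two).1 (Dvd.intro _ hDV)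
    have hWne : ∀ w ∈ W, w ≠ 0 := by
      intro w hw
      have := (dualWts_pos hw).1
      omega
    have h1 : padicValNat 2 (2 ^ r * ∏ w ∈ W, w) = r + L := by
      rw [padicValNat.mul (by positivity) (Finset.prod_ne_zero_iff.2 hWne),
        padicValNat.prime_pow]
      congr 1
      rw [hL]
      clear_value L
      clear hL hta hYle hY0 hlog hlogle hprodR hlogsum hY hYeq hsumR hWcard hsum hprod
      revert hWne
      generalize W = W'
      intro hWne
      induction W' using Finset.induction_on with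
      | empty => simp
      | insert a s ha ih =>
        rw [Finset.prod_insert ha, Finset.sum_insert ha,
          padicValNat.mul (hWne a (Finset.mem_insert_self _ _))
            (Finset.prod_ne_zero_iff.2 (fun w hw => hWne w (Finset.mem_insert_of_mem hw))),
          ih (fun w hw => hWne w (Finset.mem_insert_of_mem hw))]
    rw [hprod, padicValNat.mul hT0.ne' hDpos.ne', hc, padicValNat.prime_pow] at h1
    have h2 : padicValNat 2 r.factorial ≤ padicValNat 2 T :=
      (padicValNat_dvd_iff_le hT0.ne').1 (pow_padicValNat_dvd.trans hdvd)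
    have h3 := padic_le r
    rw [hc]
    unfold qq
    rw [← pow_add]
    apply Nat.pow_le_pow_right (by norm_num)
    omega
  have hvalR : (D : ℝ) ^ 2 ≤ (qq r : ℝ) ^ 2 * 4 ^ L := by
    have h1 : (D : ℝ) ≤ (qq r : ℝ) * 2 ^ L := by exact_mod_cast hval
    calc (D : ℝ) ^ 2 ≤ ((qq r : ℝ) * 2 ^ L) ^ 2 := pow_le_pow_left₀ hDR.le h1 2
      _ = (qq r : ℝ) ^ 2 * 4 ^ L := aux_four L _
  have hfac : (r.factorial : ℝ) * r.factorial ≤ (r - 1).factorial * (r + 1).factorial := by
    exact_mod_cast fact_ineq r hr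
  refine ⟨?_, by linarith⟩
  have hn2 : (n : ℝ) ^ (2 * r) = μ ^ 2 * (r.factorial : ℝ) ^ 2 * (D : ℝ) ^ 2 := by
    rw [aux_pow, hμ, mul_pow, mul_pow]
  have h5 := aux_combine (D : ℝ) r.factorial (r - 1).factorial (r + 1).factorial (qq r)
    (4 ^ L) ((n : ℝ) ^ (2 * r)) μ ((3 * Y) ^ (r - 1)) hDR hfR hfac hvalR hta hn2
    (mul_nonneg (Nat.cast_nonneg _) (Nat.cast_nonneg _))
  refine h5.trans ?_
  have h6 : (3 * Y) ^ (r - 1) ≤ (10 * (Real.log μ + 2 * r.factorial * μ / n)) ^ (r - 1) :=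
    pow_le_pow_left₀ (by linarith) hYle _
  exact mul_le_mul_of_nonneg_left h6 (by positivity)

end Pool.Agent.MP073f2d.Few
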