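import Pool.Agent.Work.MP_073f2d_co.Few4
import Pool.Agent.Work.MP_073f2d_co.Blow

/-!
# Codes with few dual weights: the asymptotic lower bound
-/

set_option autoImplicit false

namespace Pool.Agent.MP073f2d.Few

open Finset N8b55e67f Filter Topology
open scoped ENNReal

/-- The least density of a subspace of `𝔽₂ n` whose dual code has at most `r` nonzero weights. -/
noncomputable def minDensityFew (n r : ℕ) : ℝ≥0∞ :=
  ⨅ (V : Submodule (ZMod 2) (𝔽₂ n)) (_ : (dualWts V).card ≤ r),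
    (Nat.card V : ℝ≥0∞) * (Nat.card (hammingBall n r) : ℝ≥0∞) / (2 ^ n : ℝ≥0∞)

/-- The asymptotic density for the class. -/
noncomputable def fFew (r : ℕ) : ℝ≥0∞ := liminf (fun n => minDensityFew n r) atTop

lemma card_ball_ge (n r : ℕ) : n.choose r ≤ Nat.card (hammingBall n r) := by
  classical
  have h1 : ((Finset.powersetCard r (univ : Finset (Fin n))).image ind : Set (𝔽₂ n)) ⊆
      hammingBall n r := by
    intro x hx
    rw [Finset.coe_image] at hx
    obtain ⟨A, hA, rfl⟩ := hx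
    rw [Finset.mem_coe, Finset.mem_powersetCard] at hA
    show hammingNorm (ind A) ≤ r
    rw [hammingNorm_ind, hA.2]
  calc n.choose r = (Finset.powersetCard r (univ : Finset (Fin n))).card := by
        rw [Finset.card_powersetCard, Finset.card_univ, Fintype.card_fin]
    _ = ((Finset.powersetCard r (univ : Finset (Fin n))).image ind).card := by
        rw [Finset.card_image_of_injective _ ind_injective]
    _ = (((Finset.powersetCard r (univ : Finset (Fin n))).image ind : Finset (𝔽₂ n)) :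
          Set (𝔽₂ n)).ncard := (Set.ncard_coe_finset _).symm
    _ ≤ (hammingBall n r).ncard := Set.ncard_le_ncard h1 (Set.toFinite _)
    _ = Nat.card (hammingBall n r) := (Nat.card_coe_set_eq _).symm

lemma ball_lower (n r : ℕ) :
    ((n + 1 - r : ℕ) : ℝ) ^ r ≤ r.factorial * (Nat.card (hammingBall n r) : ℝ) := by
  have h1 := Nat.pow_le_choose (α := ℝ) r n
  have h2 : (n.choose r : ℝ) ≤ (Nat.card (hammingBall n r) : ℝ) := by
    exact_mod_cast card_ball_ge n r
  have h3 : (0 : ℝ) < r.factorial := by exact_mod_cast r.factorial_pos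
  rw [div_le_iff₀ h3] at h1
  calc ((n + 1 - r : ℕ) : ℝ) ^ r ≤ (n.choose r : ℝ) * r.factorial := h1
    _ ≤ (Nat.card (hammingBall n r) : ℝ) * r.factorial := by gcongr
    _ = _ := mul_comm _ _

lemma ball_upper (n r : ℕ) :
    (Nat.card (hammingBall n r) : ℝ) ≤ ((n + r : ℕ) : ℝ) ^ r := by
  have h1 := card_ball_le n r
  have h2 : (n + r).choose r ≤ (n + r) ^ r := Nat.choose_le_pow (n + r) r
  exact_mod_cast h1.trans h2

/-- The number of points in the balls of radius `r - 1` and `r`. -/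
lemma ball_ratio (r : ℕ) (hr : 1 ≤ r) (B : ℝ) (hB : 0 < B) :
    ∀ᶠ n : ℕ in atTop, 2 * B * (Nat.card (hammingBall n (r - 1)) : ℝ) ≤
      (Nat.card (hammingBall n r) : ℝ) := by
  obtain ⟨N, hN⟩ := exists_nat_ge (2 * B * r.factorial * 2 ^ (2 * r - 1))
  filter_upwards [eventually_ge_atTop (max N (2 * r + 1))] with n hn
  have hnN : N ≤ n := (le_max_left _ _).trans hn
  have hnr : 2 * r + 1 ≤ n := (le_max_right _ _).trans hn
  have hnR : (2 * B * r.factorial * 2 ^ (2 * r - 1)) ≤ (n : ℝ) := hN.trans (by exact_mod_cast hnN)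
  have hn0 : (0 : ℝ) < n := by
    have : 0 < n := by omega
    exact_mod_cast this
  have h1 : (Nat.card (hammingBall n (r - 1)) : ℝ) ≤ (2 * (n : ℝ)) ^ (r - 1) := by
    refine (ball_upper n (r - 1)).trans ?_
    apply pow_le_pow_left₀ (by positivity)
    have : n + (r - 1) ≤ 2 * n := by omega
    exact_mod_cast this
  have h2 : ((n : ℝ) / 2) ^ r ≤ r.factorial * (Nat.card (hammingBall n r) : ℝ) := by
    refine le_trans ?_ (ball_lower n r)
    apply pow_le_pow_left₀ (by positivity)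
    rw [div_le_iff₀ (by norm_num)]
    have : n ≤ (n + 1 - r) * 2 := by omega
    exact_mod_cast this
  have hf : (0 : ℝ) < r.factorial := by exact_mod_cast r.factorial_pos
  have h3 : r.factorial * (2 * B * (2 * (n : ℝ)) ^ (r - 1)) ≤ ((n : ℝ) / 2) ^ r := by
    obtain ⟨k, rfl⟩ : ∃ k, r = k + 1 := ⟨r - 1, by omega⟩
    rw [Nat.add_sub_cancel, mul_pow, div_pow, le_div_iff₀ (by positivity)]
    have h4 : 2 * (k + 1) - 1 = k + (k + 1) := by omega
    rw [h4, pow_add] at hnR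
    calc (k + 1).factorial * (2 * B * (2 ^ k * (n : ℝ) ^ k)) * 2 ^ (k + 1)
        = (2 * B * (k + 1).factorial * (2 ^ k * 2 ^ (k + 1))) * (n : ℝ) ^ k := by ring
      _ ≤ (n : ℝ) * (n : ℝ) ^ k := by gcongr
      _ = (n : ℝ) ^ (k + 1) := by ring
  have h5 : r.factorial * (2 * B * (Nat.card (hammingBall n (r - 1)) : ℝ)) ≤
      r.factorial * (Nat.card (hammingBall n r) : ℝ) := by
    calc r.factorial * (2 * B * (Nat.card (hammingBall n (r - 1)) : ℝ))
        ≤ r.factorial * (2 * B * (2 * (n : ℝ)) ^ (r - 1)) := by gcongr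
      _ ≤ ((n : ℝ) / 2) ^ r := h3
      _ ≤ _ := h2
  exact le_of_mul_le_mul_left h5 hf

lemma exp_step (k : ℕ) (hk : 1 ≤ k) : ((k : ℝ) + 1) ^ k ≤ Real.exp 1 * (k : ℝ) ^ k := by
  have hk0 : (0 : ℝ) < k := by exact_mod_cast hk
  have h1 : (1 + 1 / (k : ℝ)) ^ k ≤ Real.exp 1 := by
    calc (1 + 1 / (k : ℝ)) ^ k ≤ (Real.exp (1 / (k : ℝ))) ^ k := by
          apply pow_le_pow_left₀ (by positivity)
          have := Real.add_one_le_exp (1 / (k : ℝ))
          linarith
      _ = Real.exp 1 := by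
          rw [← Real.exp_nat_mul]
          congr 1
          field_simp
  have h2 : (k : ℝ) + 1 = (1 + 1 / (k : ℝ)) * k := by field_simp
  rw [h2, mul_pow]
  exact mul_le_mul_of_nonneg_right h1 (by positivity)

lemma exp_small : Real.exp (1 / 25) ≤ 1.041 := by
  have h := Real.exp_bound' (x := (1 / 25 : ℝ)) (by norm_num) (by norm_num) (n := 3) (by norm_num)
  refine h.trans ?_
  norm_num [Finset.sum_range_succ, Nat.factorial]

/-- The numerical inequality for `k = r - 1 ≥ 3`. -/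
lemma num_ge_three (k : ℕ) (hk : 3 ≤ k) :
    2 * ((k : ℝ) + 2) ^ 2 * (0.2082 : ℝ) ^ k * (k : ℝ) ^ k < ((k + 1).factorial : ℝ) := by
  induction k, hk using Nat.le_induction with
  | base => norm_num [Nat.factorial]
  | succ k hk ih =>
    have hk0 : (3 : ℝ) ≤ k := by exact_mod_cast hk
    have h1 := exp_step k (by omega)
    have he := Real.exp_one_lt_d9
    have h2 : ((k : ℝ) + 3) ^ 2 * 0.2082 * ((k : ℝ) + 1) ^ (k + 1) ≤
        ((k : ℝ) + 2) ^ 3 * (k : ℝ) ^ k := by
      calc ((k : ℝ) + 3) ^ 2 * 0.2082 * ((k : ℝ) + 1) ^ (k + 1)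
          = ((k : ℝ) + 3) ^ 2 * 0.2082 * ((k : ℝ) + 1) * ((k : ℝ) + 1) ^ k := by ring
        _ ≤ ((k : ℝ) + 3) ^ 2 * 0.2082 * ((k : ℝ) + 1) * (Real.exp 1 * (k : ℝ) ^ k) := by gcongr
        _ = (((k : ℝ) + 3) ^ 2 * ((k : ℝ) + 1) * (0.2082 * Real.exp 1)) * (k : ℝ) ^ k := by ring
        _ ≤ ((k : ℝ) + 2) ^ 3 * (k : ℝ) ^ k := by
            apply mul_le_mul_of_nonneg_right _ (by positivity)
            have h3 : 0.2082 * Real.exp 1 ≤ 0.567 := by linarith
            calc ((k : ℝ) + 3) ^ 2 * ((k : ℝ) + 1) * (0.2082 * Real.exp 1)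
                ≤ ((k : ℝ) + 3) ^ 2 * ((k : ℝ) + 1) * 0.567 := by gcongr
              _ ≤ ((k : ℝ) + 2) ^ 3 := by nlinarith
    have hfac : (((k + 1) + 1).factorial : ℝ) = ((k : ℝ) + 2) * ((k + 1).factorial : ℝ) := by
      rw [Nat.factorial_succ (k + 1)]; push_cast; ring
    rw [hfac]
    push_cast
    have hc : (0 : ℝ) < (0.2082 : ℝ) ^ k := by positivity
    calc 2 * ((k : ℝ) + 1 + 2) ^ 2 * (0.2082 : ℝ) ^ (k + 1) * ((k : ℝ) + 1) ^ (k + 1)
        = 2 * (0.2082 : ℝ) ^ k * (((k : ℝ) + 3) ^ 2 * 0.2082 * ((k : ℝ) + 1) ^ (k + 1)) := by ring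
      _ ≤ 2 * (0.2082 : ℝ) ^ k * (((k : ℝ) + 2) ^ 3 * (k : ℝ) ^ k) := by gcongr
      _ = ((k : ℝ) + 2) * (2 * ((k : ℝ) + 2) ^ 2 * (0.2082 : ℝ) ^ k * (k : ℝ) ^ k) := by ring
      _ < ((k : ℝ) + 2) * ((k + 1).factorial : ℝ) := by
          apply mul_lt_mul_of_pos_left ih (by positivity)

/-- The numerical inequality. -/
lemma num_ineq (r : ℕ) (hr : 2 ≤ r) :
    2 * (qq r : ℝ) ^ 2 * (Real.exp (((r : ℝ) - 1) / 50)) ^ 2 *
      (10 * (((r : ℝ) - 1) / 50)) ^ (r - 1) < (r.factorial : ℝ) := by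
  obtain ⟨k, rfl⟩ : ∃ k, r = k + 1 := ⟨r - 1, by omega⟩
  rw [Nat.add_sub_cancel]
  push_cast
  have h1 : (Real.exp (((k : ℝ) + 1 - 1) / 50)) ^ 2 ≤ (1.041 : ℝ) ^ k := by
    calc (Real.exp (((k : ℝ) + 1 - 1) / 50)) ^ 2 = (Real.exp (1 / 25)) ^ k := by
          rw [← Real.exp_nat_mul, ← Real.exp_nat_mul]
          congr 1
          push_cast
          ring
      _ ≤ (1.041 : ℝ) ^ k := pow_le_pow_left₀ (Real.exp_pos _).le exp_small k
  have h2 : (10 * (((k : ℝ) + 1 - 1) / 50)) ^ k = (0.2 : ℝ) ^ k * (k : ℝ) ^ k := by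
    rw [← mul_pow]
    congr 1
    ring
  rw [h2]
  have h3 : 2 * (qq (k + 1) : ℝ) ^ 2 * (Real.exp (((k : ℝ) + 1 - 1) / 50)) ^ 2 *
      ((0.2 : ℝ) ^ k * (k : ℝ) ^ k) ≤
      2 * (qq (k + 1) : ℝ) ^ 2 * (0.2082 : ℝ) ^ k * (k : ℝ) ^ k := by
    calc 2 * (qq (k + 1) : ℝ) ^ 2 * (Real.exp (((k : ℝ) + 1 - 1) / 50)) ^ 2 *
          ((0.2 : ℝ) ^ k * (k : ℝ) ^ k)
        ≤ 2 * (qq (k + 1) : ℝ) ^ 2 * (1.041 : ℝ) ^ k * ((0.2 : ℝ) ^ k * (k : ℝ) ^ k) := by
          gcongr
      _ = 2 * (qq (k + 1) : ℝ) ^ 2 * ((1.041 : ℝ) * 0.2) ^ k * (k : ℝ) ^ k := by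
          rw [mul_pow]; ring
      _ = 2 * (qq (k + 1) : ℝ) ^ 2 * (0.2082 : ℝ) ^ k * (k : ℝ) ^ k := by norm_num
  refine lt_of_le_of_lt h3 ?_
  rcases Nat.lt_or_ge k 3 with hk | hk
  · have hk1 : k = 1 ∨ k = 2 := by omega
    rcases hk1 with rfl | rfl
    · rw [qq_two]
      norm_num [Nat.factorial]
    · have h4 : (qq (2 + 1) : ℝ) ≤ 4 := by exact_mod_cast qq_le 3
      have h5 : 2 * (qq (2 + 1) : ℝ) ^ 2 * (0.2082 : ℝ) ^ 2 * ((2 : ℕ) : ℝ) ^ 2 ≤
          2 * (4 : ℝ) ^ 2 * (0.2082 : ℝ) ^ 2 * ((2 : ℕ) : ℝ) ^ 2 := by gcongr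
      have h6 : (((2 + 1 : ℕ).factorial : ℕ) : ℝ) = 6 := by norm_num [Nat.factorial]
      rw [h6]
      refine lt_of_le_of_lt h5 ?_
      norm_num
  · have h4 : (qq (k + 1) : ℝ) ≤ (k : ℝ) + 2 := by
      have := qq_le (k + 1)
      have h5 : ((qq (k + 1) : ℕ) : ℝ) ≤ ((k + 1 + 1 : ℕ) : ℝ) := by exact_mod_cast this
      push_cast at h5
      linarith
    calc 2 * (qq (k + 1) : ℝ) ^ 2 * (0.2082 : ℝ) ^ k * (k : ℝ) ^ k
        ≤ 2 * ((k : ℝ) + 2) ^ 2 * (0.2082 : ℝ) ^ k * (k : ℝ) ^ k := by gcongr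
      _ < _ := num_ge_three k hk

/-- If no point is far then the dual code is small. -/
lemma dual_le_of_near {n r : ℕ} (V : Submodule (ZMod 2) (𝔽₂ n)) (hr : 1 ≤ r)
    (h : ∀ x, ¬ Far V r x) : (dualF V).card ≤ Nat.card (hammingBall n (r - 1)) := by
  classical
  have h1 := card_near_le V r hr
  have h2 : (univ.filter (fun x => ¬ Far V r x)) = (univ : Finset (𝔽₂ n)) := by
    rw [Finset.filter_eq_self]
    intro x _
    exact h x
  have h3 : (univ : Finset (𝔽₂ n)).card = 2 ^ n := by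
    simp [Fintype.card_pi, ZMod.card]
  rw [h2, h3, ← card_dual_mul V, mul_comm] at h1
  exact Nat.le_of_mul_le_mul_left h1 Nat.card_pos

/-- The density in terms of the dual code. -/
lemma density_eq {n r : ℕ} (V : Submodule (ZMod 2) (𝔽₂ n)) :
    (Nat.card V : ℝ≥0∞) * (Nat.card (hammingBall n r) : ℝ≥0∞) / (2 ^ n : ℝ≥0∞) =
      (Nat.card (hammingBall n r) : ℝ≥0∞) / ((dualF V).card : ℝ≥0∞) := by
  have h1 : (2 ^ n : ℝ≥0∞) = (Nat.card V : ℝ≥0∞) * ((dualF V).card : ℝ≥0∞) := by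
    have := card_dual_mul V
    rw [mul_comm] at this
    exact_mod_cast this.symm
  have hV : (Nat.card V : ℝ≥0∞) ≠ 0 := by
    have : 0 < Nat.card V := Nat.card_pos
    exact_mod_cast this.ne'
  rw [h1]
  exact ENNReal.mul_div_mul_left _ _ hV (ENNReal.natCast_ne_top _)

/-- Eventual lower bound, real form. -/
theorem eventually_lower (r : ℕ) (hr : 2 ≤ r) :
    ∀ᶠ n : ℕ in atTop, ∀ V : Submodule (ZMod 2) (𝔽₂ n), (dualWts V).card ≤ r →
      Real.exp (((r : ℝ) - 1) / 50) * (dualF V).card ≤ (Nat.card (hammingBall n r) : ℝ) := by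
  set B : ℝ := Real.exp (((r : ℝ) - 1) / 50) with hB
  have hBpos : 0 < B := Real.exp_pos _
  have hB1 : 1 ≤ B := by
    rw [hB]
    apply Real.one_le_exp
    have : (2 : ℝ) ≤ r := by exact_mod_cast hr
    linarith
  -- the comparison sequence
  set mu : ℕ → ℝ := fun n => B * ((n : ℝ) / ((n : ℝ) + 1 - r)) ^ r with hmu
  have hq : Tendsto (fun n : ℕ => (n : ℝ) / ((n : ℝ) + 1 - r)) atTop (𝓝 1) := by
    have h1 : Tendsto (fun n : ℕ => 1 + (1 - (r : ℝ)) * (n : ℝ)⁻¹) atTop
        (𝓝 (1 + (1 - (r : ℝ)) * 0)) :=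
      tendsto_const_nhds.add (tendsto_const_nhds.mul tendsto_inv_atTop_nhds_zero_nat)
    rw [mul_zero, add_zero] at h1
    have h2 := h1.inv₀ one_ne_zero
    rw [inv_one] at h2
    refine h2.congr' ?_
    filter_upwards [eventually_gt_atTop r] with n hn
    have hn0 : (0 : ℝ) < n := by
      have : 0 < n := by omega
      exact_mod_cast this
    have h3 : (0 : ℝ) < (n : ℝ) + 1 - r := by
      have : (r : ℝ) < n := by exact_mod_cast hn
      linarith
    rw [inv_eq_one_div, div_eq_div_iff (by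
      have : 1 + (1 - (r : ℝ)) * (n : ℝ)⁻¹ = ((n : ℝ) + 1 - r) / n := by field_simp; ring
      rw [this]; positivity) h3.ne']
    field_simp
    ring
  have hmuT : Tendsto mu atTop (𝓝 B) := by
    have := (hq.pow r).const_mul B
    rwa [one_pow, mul_one] at this
  have hF : Tendsto (fun n : ℕ => 2 * (qq r : ℝ) ^ 2 * (mu n) ^ 2 *
      (10 * (Real.log (mu n) + 2 * r.factorial * mu n * (n : ℝ)⁻¹)) ^ (r - 1)) atTop
      (𝓝 (2 * (qq r : ℝ) ^ 2 * B ^ 2 *
        (10 * (Real.log B + 2 * r.factorial * B * 0)) ^ (r - 1))) := by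
    have h1 : Tendsto (fun n : ℕ => Real.log (mu n)) atTop (𝓝 (Real.log B)) :=
      (Real.continuousAt_log hBpos.ne').tendsto.comp hmuT
    exact ((tendsto_const_nhds.mul (hmuT.pow 2))).mul
      ((tendsto_const_nhds.mul (h1.add ((tendsto_const_nhds.mul hmuT).mul
        tendsto_inv_atTop_nhds_zero_nat))).pow (r - 1))
  have hlim : 2 * (qq r : ℝ) ^ 2 * B ^ 2 *
      (10 * (Real.log B + 2 * r.factorial * B * 0)) ^ (r - 1) < (r.factorial : ℝ) := by
    have h1 := num_ineq r hr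
    rw [mul_zero, add_zero, hB, Real.log_exp]
    exact h1
  have hev := hF.eventually_lt_const hlim
  filter_upwards [hev, ball_ratio r (by omega) B hBpos, eventually_gt_atTop r] with n hn1 hn2 hn3
  intro V hV
  by_contra hcon
  push Not at hcon
  have hDpos : (0 : ℝ) < (dualF V).card := by exact_mod_cast dualF_card_pos V
  have hn0 : (0 : ℝ) < n := by
    have : 0 < n := by omega
    exact_mod_cast this
  by_cases hfar : ∃ x, Far V r x
  · have hs : (dualWts V).card = r := by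
      apply le_antisymm hV
      obtain ⟨x, hx⟩ := hfar
      obtain ⟨v, hv, hle⟩ := delsarte V x
      exact (hx v hv).trans hle
    have hhalf : 2 * Nat.card (hammingBall n (r - 1)) ≤ (dualF V).card := by
      have h1 : B * (2 * (Nat.card (hammingBall n (r - 1)) : ℝ)) ≤ B * (dualF V).card := by
        linarith
      have h2 := le_of_mul_le_mul_left h1 hBpos
      exact_mod_cast h2
    have hf : (0 : ℝ) < r.factorial := by exact_mod_cast r.factorial_pos
    set μ : ℝ := (n : ℝ) ^ r / (r.factorial * (dualF V).card) with hμ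
    have hμpos : 0 < μ := by positivity
    have hμeq : (n : ℝ) ^ r = μ * r.factorial * (dualF V).card := by
      rw [hμ]; field_simp
    obtain ⟨hA, hA0⟩ := finite_ineq V (by omega) (by omega) hs hfar hhalf μ hμeq
    have hcast : ((n + 1 - r : ℕ) : ℝ) = (n : ℝ) + 1 - r := by
      rw [Nat.cast_sub (by omega)]; push_cast; ring
    have hden : (0 : ℝ) < (n : ℝ) + 1 - r := by
      have : (r : ℝ) < n := by exact_mod_cast hn3
      linarith
    have hμle : μ ≤ mu n := by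
      have hfD : (0 : ℝ) < r.factorial * (dualF V).card := mul_pos hf hDpos
      rw [hμ, hmu]
      simp only
      rw [div_pow, div_le_iff₀ hfD]
      have h1 := ball_lower n r
      rw [hcast] at h1
      have h2 : ((n : ℝ) + 1 - r) ^ r ≤ r.factorial * (B * (dualF V).card) :=
        h1.trans (mul_le_mul_of_nonneg_left hcon.le hf.le)
      have h3 : (n : ℝ) ^ r * ((n : ℝ) + 1 - r) ^ r ≤
          (n : ℝ) ^ r * (r.factorial * (B * (dualF V).card)) :=
        mul_le_mul_of_nonneg_left h2 (by positivity)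
      have h4 : B * ((n : ℝ) ^ r / ((n : ℝ) + 1 - r) ^ r) * (r.factorial * (dualF V).card) =
          ((n : ℝ) ^ r * (r.factorial * (B * (dualF V).card))) / ((n : ℝ) + 1 - r) ^ r := by
        ring
      rw [h4, le_div_iff₀ (by positivity)]
      exact h3
    have hlog : Real.log μ ≤ Real.log (mu n) := Real.log_le_log hμpos hμle
    have hstep : 2 * (qq r : ℝ) ^ 2 * μ ^ 2 *
        (10 * (Real.log μ + 2 * r.factorial * μ / n)) ^ (r - 1) ≤
        2 * (qq r : ℝ) ^ 2 * (mu n) ^ 2 *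
        (10 * (Real.log (mu n) + 2 * r.factorial * mu n * (n : ℝ)⁻¹)) ^ (r - 1) := by
      have h1 : Real.log μ + 2 * r.factorial * μ / n ≤
          Real.log (mu n) + 2 * r.factorial * mu n * (n : ℝ)⁻¹ := by
        rw [div_eq_mul_inv]
        apply add_le_add hlog
        apply mul_le_mul_of_nonneg_right _ (inv_nonneg.2 hn0.le)
        exact mul_le_mul_of_nonneg_left hμle (by positivity)
      have h2 : (10 * (Real.log μ + 2 * r.factorial * μ / n)) ^ (r - 1) ≤
          (10 * (Real.log (mu n) + 2 * r.factorial * mu n * (n : ℝ)⁻¹)) ^ (r - 1) :=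
        pow_le_pow_left₀ (by linarith) (by linarith) _
      have h3 : μ ^ 2 ≤ (mu n) ^ 2 := pow_le_pow_left₀ hμpos.le hμle 2
      have h4 : 0 ≤ (10 * (Real.log μ + 2 * r.factorial * μ / n)) ^ (r - 1) :=
        pow_nonneg (by linarith) _
      apply mul_le_mul _ h2 h4 (by positivity)
      exact mul_le_mul_of_nonneg_left h3 (by positivity)
    linarith
  · push Not at hfar
    have h1 := dual_le_of_near V (by omega) hfar
    have h2 : ((dualF V).card : ℝ) ≤ (Nat.card (hammingBall n (r - 1)) : ℝ) := by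
      exact_mod_cast h1
    have h3 : B * (dualF V).card ≤ B * (Nat.card (hammingBall n (r - 1)) : ℝ) := by gcongr
    have h4 : 0 ≤ B * (Nat.card (hammingBall n (r - 1)) : ℝ) := by positivity
    linarith

theorem lower_bound (r : ℕ) (hr : 1 ≤ r) :
    ENNReal.ofReal (Real.exp (((r : ℝ) - 1) / 50)) ≤ fFew r := by
  unfold fFew
  have key : ∀ᶠ n : ℕ in atTop, ∀ V : Submodule (ZMod 2) (𝔽₂ n), (dualWts V).card ≤ r →
      Real.exp (((r : ℝ) - 1) / 50) * (dualF V).card ≤ (Nat.card (hammingBall n r) : ℝ) := by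
    rcases Nat.lt_or_ge r 2 with h | h
    · have hr1 : r = 1 := by omega
      subst hr1
      filter_upwards with n
      intro V hV
      have h1 := dual_le_of_near (r := 2) V (by norm_num) (fun x hx => by
        obtain ⟨v, hv, hle⟩ := delsarte V x
        have := hx v hv
        omega)
      have h2 : ((dualF V).card : ℝ) ≤ (Nat.card (hammingBall n 1) : ℝ) := by exact_mod_cast h1
      simpa using h2
    · exact eventually_lower r h
  apply le_liminf_of_le (by isBoundedDefault)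
  filter_upwards [key] with n hn
  unfold minDensityFew
  refine le_iInf (fun V => le_iInf (fun hV => ?_))
  rw [density_eq]
  have h1 := hn V hV
  have hD : ((dualF V).card : ℝ≥0∞) ≠ 0 := by
    have := dualF_card_pos V
    exact_mod_cast this.ne'
  rw [ENNReal.le_div_iff_mul_le (Or.inl hD) (Or.inl (ENNReal.natCast_ne_top _))]
  rw [← ENNReal.ofReal_natCast, ← ENNReal.ofReal_natCast, ← ENNReal.ofReal_mul (Real.exp_pos _).le]
  exact ENNReal.ofReal_le_ofReal h1

end Pool.Agent.MP073f2d.Few
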